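import Pool.Agent.Y770.SC.BS
import Pool.Agent.TH339.MP.X6
import Pool.Agent.TH958.BV.Defs

/-!
# The twists of the L-functions as exponentials of Dirichlet series
-/

set_option autoImplicit false

open Complex Filter Topology Set MeasureTheory Metric NumberField IsDedekindDomain
open scoped ArithmeticFunction.vonMangoldt ComplexConjugate

namespace Pool.Agent.Y770.SC

open Pool.Agent.TH339.MP (PP FF bb norm_bb hasProd_L nm dg pr nm_eq Sp mem_Sp qq aco aco_qq hasSum_aco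
  qq_injective two_le_qq log_qq differentiableOn_FF)

variable {K : Type} [Field K] [NumberField K] {N : ℕ}

/-- the normalised eigenvalues -/
noncomputable def nb (i : ℕ) (S : Set (HeightOneSpectrum (𝓞 K)))
    (α : HeightOneSpectrum (𝓞 K) → Fin N → ℂ) (v : HeightOneSpectrum (𝓞 K)) (j : Fin N) : ℂ := by
  classical exact if v ∈ S then 0 else α v j / (((nm v : ℝ) ^ ((i : ℝ) / 2) : ℝ) : ℂ)

/-- the twist by a function on the integers -/
noncomputable def tw (c : ℕ → ℂ) (β : HeightOneSpectrum (𝓞 K) → Fin N → ℂ)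
    (v : HeightOneSpectrum (𝓞 K)) (j : Fin N) : ℂ := c (nm v) * β v j

lemma nm_pos (v : HeightOneSpectrum (𝓞 K)) : 0 < nm v := by
  have := Pool.Agent.TH339.MP.two_le_nm v
  omega

lemma norm_nb {i : ℕ} {S : Set (HeightOneSpectrum (𝓞 K))}
    {α : HeightOneSpectrum (𝓞 K) → Fin N → ℂ}
    (hα : ∀ v, v ∉ S → ∀ j, ‖α v j‖ = (nm v : ℝ) ^ ((i : ℝ) / 2)) (v) (j) :
    ‖nb i S α v j‖ ≤ 1 := by
  unfold nb
  split_ifs with h
  · simp
  · have h0 : 0 < (nm v : ℝ) ^ ((i : ℝ) / 2) := by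
      have := nm_pos v
      positivity
    rw [norm_div, hα v h j, Complex.norm_real, Real.norm_of_nonneg h0.le, div_self h0.ne']

lemma norm_tw {c : ℕ → ℂ} (hc : ∀ n, ‖c n‖ ≤ 1) {β : HeightOneSpectrum (𝓞 K) → Fin N → ℂ}
    (hβ : ∀ v j, ‖β v j‖ ≤ 1) (v) (j) : ‖tw c β v j‖ ≤ 1 := by
  unfold tw
  rw [norm_mul]
  exact mul_le_one₀ (hc _) (norm_nonneg _) (hβ v j)

lemma bb_tw {c : ℕ → ℂ} (hc1 : c 1 = 1) (hcm : ∀ m n, c (m * n) = c m * c n)
    (β : HeightOneSpectrum (𝓞 K) → Fin N → ℂ) (x : PP) : bb (tw c β) x = c (qq x) * bb β x := by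
  have hpow : ∀ m k : ℕ, c (m ^ k) = c m ^ k := by
    intro m k
    induction k with
    | zero => simp [hc1]
    | succ k ih => rw [pow_succ, hcm, ih, pow_succ]
  unfold bb
  rw [Finset.mul_sum]
  refine Finset.sum_congr rfl fun v hv => ?_
  split_ifs with h
  · have hv' : pr v = x.1 := (mem_Sp _ _).1 hv
    have h1 : c (nm v) ^ ((x.2 + 1) / dg v) = c (qq x) := by
      rw [← hpow, nm_eq v, ← pow_mul, Nat.mul_div_cancel' h, hv']
      rfl
    have h2 : ∑ j, tw c β v j ^ ((x.2 + 1) / dg v) =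
        c (qq x) * ∑ j, β v j ^ ((x.2 + 1) / dg v) := by
      rw [Finset.mul_sum]
      refine Finset.sum_congr rfl fun j _ => ?_
      unfold tw
      rw [mul_pow, h1]
    rw [h2]
    ring
  · rw [mul_zero]

/-- the coefficients of `- (d/ds) log` -/
noncomputable def cof (b : PP → ℂ) (n : ℕ) : ℂ := (Real.log n : ℂ) * aco b n

lemma norm_cof {b : PP → ℂ} {M : ℝ} (hb : ∀ x, ‖b x‖ ≤ M / (x.2 + 1 : ℕ)) (n : ℕ) :
    ‖cof b n‖ ≤ M * Λ n := by
  unfold cof
  by_cases h : ∃ x, qq x = n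
  · obtain ⟨x, rfl⟩ := h
    rw [norm_mul, aco_qq, log_qq, Complex.norm_real]
    have hp : 0 ≤ Real.log (x.1 : ℕ) := Real.log_natCast_nonneg _
    rw [Real.norm_of_nonneg (by positivity)]
    have h1 : Λ (qq x) = Real.log (x.1 : ℕ) := by
      unfold qq
      rw [ArithmeticFunction.vonMangoldt_apply_pow (by omega),
        ArithmeticFunction.vonMangoldt_apply_prime x.1.2]
    rw [h1]
    have h2 := mul_le_mul_of_nonneg_left (hb x) (by positivity :
      0 ≤ ((x.2 + 1 : ℕ) : ℝ) * Real.log (x.1 : ℕ))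
    have h3 : ((x.2 + 1 : ℕ) : ℝ) * Real.log (x.1 : ℕ) * (M / ((x.2 + 1 : ℕ) : ℝ)) =
        M * Real.log (x.1 : ℕ) := by
      have : ((x.2 + 1 : ℕ) : ℝ) ≠ 0 := by positivity
      field_simp
    rw [h3] at h2
    exact h2
  · have h1 : aco b n = 0 := by
      unfold aco
      rw [dif_neg h]
    rw [h1, mul_zero, norm_zero]
    have hM : 0 ≤ M := Pool.Agent.TH339.MP.M_nonneg hb
    exact mul_nonneg hM ArithmeticFunction.vonMangoldt_nonneg

lemma aco_tw {c : ℕ → ℂ} (hc1 : c 1 = 1) (hcm : ∀ m n, c (m * n) = c m * c n)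
    (β : HeightOneSpectrum (𝓞 K) → Fin N → ℂ) (n : ℕ) :
    aco (bb (tw c β)) n = c n * aco (bb β) n := by
  by_cases h : ∃ x, qq x = n
  · obtain ⟨x, rfl⟩ := h
    rw [aco_qq, aco_qq, bb_tw hc1 hcm]
  · unfold aco
    rw [dif_neg h, dif_neg h, mul_zero]

/-- the derivative of the logarithm -/
lemma hasDeriv_FF {b : PP → ℂ} {M : ℝ} (hb : ∀ x, ‖b x‖ ≤ M / (x.2 + 1 : ℕ)) {s : ℂ}
    (hs : 1 < s.re) : HasDerivAt (FF b) (-LSeries (cof b) s) s := by
  have hopen : {z : ℂ | 1 < z.re} ∈ 𝓝 s :=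
    (isOpen_lt continuous_const Complex.continuous_re).mem_nhds hs
  have h1 : FF b =ᶠ[𝓝 s] LSeries (aco b) := by
    filter_upwards [hopen] with z hz
    exact (hasSum_aco hb hz).tsum_eq.symm
  have h2 : LSeries.abscissaOfAbsConv (aco b) ≤ ((1 : ℝ) : EReal) := by
    refine LSeries.abscissaOfAbsConv_le_of_forall_lt_LSeriesSummable' fun y hy => ?_
    have hy' : (1 : ℝ) < y := by exact_mod_cast hy
    exact (hasSum_aco hb (s := (y : ℂ)) (by simpa using hy')).summable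
  have h3 : LSeries.abscissaOfAbsConv (aco b) < s.re :=
    lt_of_le_of_lt h2 (by exact_mod_cast hs)
  have h4 := (LSeries_hasDerivAt h3).congr_of_eventuallyEq h1
  have h5 : LSeries.logMul (aco b) = cof b := by
    funext n
    unfold LSeries.logMul cof
    rw [Complex.natCast_log]
  rwa [h5] at h4

section
variable {q : ℕ} (χ : DirichletCharacter ℂ q)

lemma chi_one : (fun n : ℕ => χ (n : ZMod q)) 1 = 1 := by simp

lemma chi_mul (m n : ℕ) : (fun n : ℕ => χ (n : ZMod q)) (m * n) =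
    (fun n : ℕ => χ (n : ZMod q)) m * (fun n : ℕ => χ (n : ZMod q)) n := by
  simp

variable {i : ℕ} {S : Set (HeightOneSpectrum (𝓞 K))} {α : HeightOneSpectrum (𝓞 K) → Fin N → ℂ}

open Classical in
/-- the Euler product of the twist over the primes outside `S` -/
noncomputable def LT (S : Set (HeightOneSpectrum (𝓞 K)))
    (α : HeightOneSpectrum (𝓞 K) → Fin N → ℂ) (s : ℂ) : ℂ :=
  ∏' v : HeightOneSpectrum (𝓞 K), if v ∈ S then 1 else
    ∏ j, (1 - χ ((Ideal.absNorm v.asIdeal : ℕ) : ZMod q) * α v j *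
      (Ideal.absNorm v.asIdeal : ℂ) ^ (-s))⁻¹

lemma LT_eq (hα : ∀ v, v ∉ S → ∀ j, ‖α v j‖ = (nm v : ℝ) ^ ((i : ℝ) / 2)) {s : ℂ}
    (hs : 1 < s.re) :
    LT χ S α (s + i / 2) =
      Complex.exp (FF (bb (tw (fun n : ℕ => χ (n : ZMod q)) (nb i S α))) s) := by
  have h1 := hasProd_L (norm_tw (c := fun n : ℕ => χ (n : ZMod q)) (fun n => χ.norm_le_one _)
    (norm_nb hα)) hs
  rw [← h1.tprod_eq]
  unfold LT
  refine tprod_congr fun v => ?_
  by_cases hv : v ∈ S
  · rw [if_pos hv]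
    symm
    refine Finset.prod_eq_one fun j _ => ?_
    unfold tw nb
    rw [if_pos hv]
    simp
  · rw [if_neg hv]
    refine Finset.prod_congr rfl fun j _ => ?_
    unfold tw nb
    rw [if_neg hv]
    have hn0 : ((nm v : ℕ) : ℂ) ≠ 0 := by
      have := nm_pos v
      exact_mod_cast this.ne'
    have e1 : ((((nm v : ℝ) ^ ((i : ℝ) / 2) : ℝ)) : ℂ) = ((nm v : ℕ) : ℂ) ^ ((i : ℂ) / 2) := by
      rw [Complex.ofReal_cpow (Nat.cast_nonneg _)]
      push_cast
      rfl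
    have e2 : ((nm v : ℕ) : ℂ) ^ (-(s + i / 2)) =
        ((nm v : ℕ) : ℂ) ^ (-s) / ((nm v : ℕ) : ℂ) ^ ((i : ℂ) / 2) := by
      rw [neg_add, Complex.cpow_add _ _ hn0, Complex.cpow_neg _ ((i : ℂ) / 2), ← div_eq_mul_inv]
    have e3 : (Ideal.absNorm v.asIdeal : ℂ) = ((nm v : ℕ) : ℂ) := rfl
    have e4 : ((Ideal.absNorm v.asIdeal : ℕ) : ZMod q) = ((nm v : ℕ) : ZMod q) := rfl
    rw [e1, e3, e4, e2]
    ring

/-- the logarithmic derivative of the twist -/
theorem logDeriv_LT (hα : ∀ v, v ∉ S → ∀ j, ‖α v j‖ = (nm v : ℝ) ^ ((i : ℝ) / 2)) {ε : ℝ}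
    (hε : 0 < ε) (τ : ℝ) :
    ε * logDeriv (LT χ S α) (Pool.Agent.TH958.BV.edgePoint i τ + ε) =
      -AA (cof (bb (nb i S α))) ε χ τ := by
  set b := bb (tw (fun n : ℕ => χ (n : ZMod q)) (nb i S α)) with hb
  have hbn : ∀ x, ‖b x‖ ≤ ((Module.finrank ℚ K : ℝ) * N) / (x.2 + 1 : ℕ) := fun x =>
    norm_bb (norm_tw (c := fun n : ℕ => χ (n : ZMod q)) (fun n => χ.norm_le_one _)
      (norm_nb hα)) x
  set s₀ : ℂ := Pool.Agent.TH958.BV.edgePoint i τ + ε with hs₀
  have hre : s₀.re = (i : ℝ) / 2 + 1 + ε := by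
    rw [hs₀]
    unfold Pool.Agent.TH958.BV.edgePoint
    simp
  have hsub : s₀ - i / 2 = ⟨1 + ε, τ⟩ := by
    rw [hs₀]
    unfold Pool.Agent.TH958.BV.edgePoint
    apply Complex.ext
    · simp
      ring
    · simp
  have hev : LT χ S α =ᶠ[𝓝 s₀] fun s => Complex.exp (FF b (s - i / 2)) := by
    have hopen : {z : ℂ | (i : ℝ) / 2 + 1 < z.re} ∈ 𝓝 s₀ := by
      refine (isOpen_lt continuous_const Complex.continuous_re).mem_nhds ?_
      change (i : ℝ) / 2 + 1 < s₀.re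
      rw [hre]
      linarith
    filter_upwards [hopen] with z hz
    have hz' : 1 < (z - i / 2).re := by
      have e : (z - i / 2).re = z.re - i / 2 := by simp
      rw [e]
      have hz2 : (i : ℝ) / 2 + 1 < z.re := hz
      linarith
    have h1 := LT_eq χ hα hz'
    rw [sub_add_cancel] at h1
    exact h1
  have hs1 : 1 < (s₀ - i / 2).re := by
    rw [hsub]
    change 1 < 1 + ε
    linarith
  have hd : HasDerivAt (fun s => Complex.exp (FF b (s - i / 2)))
      (Complex.exp (FF b (s₀ - i / 2)) * -LSeries (cof b) (s₀ - i / 2)) s₀ := by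
    have h1 := (hasDeriv_FF hbn hs1).comp_sub_const s₀ ((i : ℂ) / 2)
    exact h1.cexp
  rw [logDeriv_apply, hev.deriv_eq, hev.eq_of_nhds, hd.deriv,
    mul_div_cancel_left₀ _ (Complex.exp_ne_zero _), hsub]
  unfold AA
  rw [mul_neg]
  congr 3
  funext n
  unfold cof
  rw [hb, aco_tw (chi_one χ) (chi_mul χ)]
  ring

end

end Pool.Agent.Y770.SC
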