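import Pool.Agent.Y770.SC.ZN

/-!
# The Bessel inequality for the logarithmic derivatives of twists
-/

set_option autoImplicit false

open Complex Filter Topology Set MeasureTheory Metric
open scoped ArithmeticFunction.vonMangoldt ComplexConjugate

namespace Pool.Agent.Y770.SC

/-- the unimodular factor `n^{-iτ}` -/
noncomputable def un (τ : ℝ) (n : ℕ) : ℂ := (n : ℂ) ^ (-(τ * I))

/-- the weight `n^{-1-ε}` -/
noncomputable def wn (ε : ℝ) (n : ℕ) : ℝ := (n : ℝ) ^ (-(1 + ε))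

lemma hs_congr {E : Type*} [AddCommMonoid E] [TopologicalSpace E] {f g : ℕ → E} {a b : E}
    (h : HasSum f a) (h1 : ∀ n, f n = g n) (h2 : a = b) : HasSum g b := by
  have h3 : f = g := funext h1
  subst h3
  subst h2
  exact h

lemma norm_un (τ : ℝ) {n : ℕ} (hn : n ≠ 0) : ‖un τ n‖ = 1 := by
  unfold un
  rw [Complex.norm_natCast_cpow_of_pos (Nat.pos_of_ne_zero hn)]
  simp

lemma un_mul_conj (τ υ : ℝ) {n : ℕ} (hn : n ≠ 0) : un τ n * conj (un υ n) = un (τ - υ) n := by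
  have h1 := norm_un υ hn
  rw [← inv_eq_conj h1]
  unfold un
  rw [← Complex.cpow_neg, ← Complex.cpow_add _ _ (by exact_mod_cast hn)]
  congr 1
  push_cast
  ring

lemma term_split {f : ℕ → ℂ} (ε τ : ℝ) {n : ℕ} (hn : n ≠ 0) :
    LSeries.term f ⟨1 + ε, τ⟩ n = f n * (wn ε n : ℂ) * un τ n := by
  rw [LSeries.term_of_ne_zero hn, div_eq_mul_inv, ← Complex.cpow_neg, mul_assoc]
  congr 1
  have e : (-(⟨1 + ε, τ⟩ : ℂ)) = ((-(1 + ε) : ℝ) : ℂ) + -(τ * I) := by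
    apply Complex.ext <;> simp
  rw [e, Complex.cpow_add _ _ (by exact_mod_cast hn)]
  unfold wn un
  rw [Complex.ofReal_cpow (Nat.cast_nonneg n)]
  simp

lemma wn_nonneg (ε : ℝ) (n : ℕ) : 0 ≤ wn ε n := by
  unfold wn
  positivity

section
variable {ι : Type} (T : Finset ι) (q : ι → ℕ) (χ : ∀ k, DirichletCharacter ℂ (q k)) (τ : ι → ℝ)
  {a : ℕ → ℂ} {M ε : ℝ}

/-- `ε` times the Dirichlet series of the twist -/
noncomputable def AA (a : ℕ → ℂ) (ε : ℝ) {q : ℕ} (χ : DirichletCharacter ℂ q) (τ : ℝ) : ℂ :=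
  ε * LSeries (fun n : ℕ => χ n * a n) ⟨1 + ε, τ⟩

theorem bessel (hM : 0 ≤ M) (ha : ∀ n, ‖a n‖ ≤ M * Λ n) (hε : 0 < ε)
    {D δ : ℝ} (hD0 : 0 < D) (hδ : 0 ≤ δ)
    (hD : ε * ‖LSeries (fun n => (Λ n : ℂ)) ((1 + ε : ℝ) : ℂ)‖ ≤ D)
    (hoff : ∀ k ∈ T, ∀ l ∈ T, k ≠ l →
      ε * ‖LSeries (fun n : ℕ => χ k n * conj (χ l n) * (Λ n : ℂ)) ⟨1 + ε, τ k - τ l⟩‖ ≤ δ) :
    ∑ k ∈ T, ‖AA a ε (χ k) (τ k)‖ ^ 2 ≤ M ^ 2 * D * (D + T.card * δ) := by
  classical
  set A : ι → ℂ := fun k => AA a ε (χ k) (τ k) with hA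
  set W : ℝ := ∑ k ∈ T, ‖A k‖ ^ 2 with hW
  have hW0 : 0 ≤ W := Finset.sum_nonneg fun _ _ => by positivity
  have hs : ∀ t : ℝ, 1 < (⟨1 + ε, t⟩ : ℂ).re := fun t => by
    change 1 < 1 + ε
    linarith
  have hΛ0 : ∀ n, 0 ≤ Λ n := fun n => ArithmeticFunction.vonMangoldt_nonneg
  set e : ι → ℕ → ℂ := fun k n => χ k n * un (τ k) n with he
  set S : ℕ → ℂ := fun n => ∑ k ∈ T, conj (A k) * e k n with hS
  set x : ℕ → ℝ := fun n => Λ n * wn ε n with hx
  have hx0 : ∀ n, 0 ≤ x n := fun n => mul_nonneg (hΛ0 n) (wn_nonneg ε n)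
  -- the first series
  have hsum1 : ∀ k, HasSum (LSeries.term (fun n : ℕ => χ k n * a n) ⟨1 + ε, τ k⟩)
      (LSeries (fun n : ℕ => χ k n * a n) ⟨1 + ε, τ k⟩) := fun k =>
    (triv_bound hM (fun n => by
      rw [norm_mul]
      calc ‖χ k n‖ * ‖a n‖ ≤ 1 * (M * Λ n) :=
            mul_le_mul ((χ k).norm_le_one _) (ha n) (norm_nonneg _) zero_le_one
        _ = M * Λ n := one_mul _) (hs _)).1.LSeriesHasSum
  have hsumA : HasSum (fun n => ∑ k ∈ T, conj (A k) * (ε *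
      LSeries.term (fun n : ℕ => χ k n * a n) ⟨1 + ε, τ k⟩ n)) (W : ℂ) := by
    have h1 := hasSum_sum (s := T) fun k _ => ((hsum1 k).mul_left (ε : ℂ)).mul_left (conj (A k))
    refine hs_congr h1 (fun n => rfl) ?_
    rw [hW]
    push_cast
    refine Finset.sum_congr rfl fun k _ => ?_
    rw [← Complex.mul_conj', mul_comm]
    rfl
  have hterm : ∀ n, ‖∑ k ∈ T, conj (A k) * (ε *
      LSeries.term (fun n : ℕ => χ k n * a n) ⟨1 + ε, τ k⟩ n)‖ ≤ ε * (M * x n * ‖S n‖) := by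
    intro n
    rcases eq_or_ne n 0 with rfl | hn
    · simp [hx]
    · have h1 : ∑ k ∈ T, conj (A k) * (ε *
          LSeries.term (fun n : ℕ => χ k n * a n) ⟨1 + ε, τ k⟩ n) =
          ε * (a n * (wn ε n : ℂ) * S n) := by
        rw [hS, Finset.mul_sum, Finset.mul_sum]
        refine Finset.sum_congr rfl fun k _ => ?_
        rw [term_split ε (τ k) hn, he]
        ring
      rw [h1, norm_mul, norm_mul, norm_mul, Complex.norm_real, Complex.norm_real,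
        Real.norm_of_nonneg hε.le, Real.norm_of_nonneg (wn_nonneg ε n)]
      have h2 : ‖a n‖ * wn ε n ≤ M * x n := by
        have := mul_le_mul_of_nonneg_right (ha n) (wn_nonneg ε n)
        rw [hx]
        linarith
      exact mul_le_mul_of_nonneg_left (mul_le_mul_of_nonneg_right h2 (norm_nonneg _)) hε.le
  -- the weight
  have hsumx : HasSum x (LSeries (fun n => (Λ n : ℂ)) ((1 + ε : ℝ) : ℂ)).re := by
    have hs0 : 1 < (((1 + ε : ℝ) : ℂ)).re := by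
      rw [ofReal_re]
      linarith
    have h1 : HasSum (LSeries.term (fun n => (Λ n : ℂ)) ((1 + ε : ℝ) : ℂ))
        (LSeries (fun n => (Λ n : ℂ)) ((1 + ε : ℝ) : ℂ)) :=
      (LSeriesSummable_Λ hs0).LSeriesHasSum
    have h2 := Complex.hasSum_re h1
    refine hs_congr h2 (fun n => ?_) rfl
    rcases eq_or_ne n 0 with rfl | hn
    · simp [hx]
    · have e0 : ((1 + ε : ℝ) : ℂ) = ⟨1 + ε, 0⟩ := by
        apply Complex.ext <;> simp
      rw [e0, term_split ε 0 hn]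
      unfold un
      simp [hx]
  -- the Gram matrix
  set G : ι → ι → ℂ := fun k l =>
    LSeries (fun n : ℕ => χ k n * conj (χ l n) * (Λ n : ℂ)) ⟨1 + ε, τ k - τ l⟩ with hG
  have hbnd : ∀ (k l : ι) (n : ℕ), ‖χ k n * conj (χ l n) * (Λ n : ℂ)‖ ≤ 1 * Λ n := by
    intro k l n
    rw [norm_mul, norm_mul, Complex.norm_conj, Complex.norm_real, Real.norm_of_nonneg (hΛ0 n)]
    refine mul_le_mul_of_nonneg_right ?_ (hΛ0 n)
    exact mul_le_one₀ ((χ k).norm_le_one _) (norm_nonneg _) ((χ l).norm_le_one _)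
  have hsumG : ∀ k l, HasSum (fun n => (x n : ℂ) * (e k n * conj (e l n))) (G k l) := by
    intro k l
    have h1 := (triv_bound zero_le_one (hbnd k l) (hs (τ k - τ l))).1.LSeriesHasSum
    refine hs_congr h1 (fun n => ?_) rfl
    rcases eq_or_ne n 0 with rfl | hn
    · simp [hx]
    · rw [term_split ε _ hn, ← un_mul_conj _ _ hn, he, hx]
      simp only [map_mul]
      push_cast
      ring
  set Z : ℂ := ∑ k ∈ T, ∑ l ∈ T, (conj (A k) * A l) * G k l with hZ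
  have hsumZ : HasSum (fun n => x n * ‖S n‖ ^ 2) Z.re := by
    have h1 : HasSum (fun n => ∑ k ∈ T, ∑ l ∈ T, (conj (A k) * A l) *
        ((x n : ℂ) * (e k n * conj (e l n)))) Z :=
      hasSum_sum fun k _ => hasSum_sum fun l _ => (hsumG k l).mul_left _
    have h2 := Complex.hasSum_re h1
    refine hs_congr h2 (fun n => ?_) rfl
    have h3 : ∑ k ∈ T, ∑ l ∈ T, (conj (A k) * A l) * ((x n : ℂ) * (e k n * conj (e l n))) =
        ((x n * ‖S n‖ ^ 2 : ℝ) : ℂ) := by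
      push_cast
      rw [← Complex.mul_conj', hS]
      simp only [map_sum, map_mul, Complex.conj_conj]
      rw [Finset.sum_mul_sum, Finset.mul_sum]
      refine Finset.sum_congr rfl fun k _ => ?_
      rw [Finset.mul_sum]
      refine Finset.sum_congr rfl fun l _ => ?_
      ring
    rw [h3, Complex.ofReal_re]
  -- AM-GM
  set lam : ℝ := D + T.card * δ with hlam
  have hlam0 : 0 < lam := by positivity
  have hLre : ε * (LSeries (fun n => (Λ n : ℂ)) ((1 + ε : ℝ) : ℂ)).re ≤ D :=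
    (mul_le_mul_of_nonneg_left ((le_abs_self _).trans (abs_re_le_norm _)) hε.le).trans hD
  have hY : HasSum (fun n => ε * (x n * ((lam * M ^ 2 + ‖S n‖ ^ 2 / lam) / 2)))
      (ε * (lam * M ^ 2 / 2 * (LSeries (fun n => (Λ n : ℂ)) ((1 + ε : ℝ) : ℂ)).re +
        1 / (2 * lam) * Z.re)) := by
    have h1 := ((hsumx.mul_left (lam * M ^ 2 / 2)).add (hsumZ.mul_left (1 / (2 * lam)))).mul_left ε
    refine hs_congr h1 (fun n => ?_) rfl
    field_simp
  have hle : ∀ n, ‖∑ k ∈ T, conj (A k) * (ε *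
      LSeries.term (fun n : ℕ => χ k n * a n) ⟨1 + ε, τ k⟩ n)‖ ≤
      ε * (x n * ((lam * M ^ 2 + ‖S n‖ ^ 2 / lam) / 2)) := by
    intro n
    refine (hterm n).trans (mul_le_mul_of_nonneg_left ?_ hε.le)
    have h1 : M * ‖S n‖ ≤ (lam * M ^ 2 + ‖S n‖ ^ 2 / lam) / 2 := by
      have h2 : 0 ≤ (lam * M - ‖S n‖) ^ 2 / lam := by positivity
      have h3 : (lam * M - ‖S n‖) ^ 2 / lam = lam * M ^ 2 - 2 * (M * ‖S n‖) + ‖S n‖ ^ 2 / lam := by
        field_simp
        ring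
      linarith
    calc M * x n * ‖S n‖ = x n * (M * ‖S n‖) := by ring
      _ ≤ _ := mul_le_mul_of_nonneg_left h1 (hx0 n)
  have hmain : ‖(W : ℂ)‖ ≤ ε * (lam * M ^ 2 / 2 *
      (LSeries (fun n => (Λ n : ℂ)) ((1 + ε : ℝ) : ℂ)).re + 1 / (2 * lam) * Z.re) := by
    rw [← hsumA.tsum_eq]
    exact tsum_of_norm_bounded hY hle
  rw [Complex.norm_real, Real.norm_of_nonneg hW0] at hmain
  -- the bilinear form
  have hZle : ε * Z.re ≤ lam * W := by
    have h1 : Z.re ≤ ∑ k ∈ T, ∑ l ∈ T, ‖A k‖ * ‖A l‖ * ‖G k l‖ := by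
      refine ((le_abs_self _).trans (abs_re_le_norm _)).trans ?_
      rw [hZ]
      refine (norm_sum_le _ _).trans (Finset.sum_le_sum fun k _ => (norm_sum_le _ _).trans
        (Finset.sum_le_sum fun l _ => ?_))
      rw [norm_mul, norm_mul, Complex.norm_conj]
    have h2 : ∀ k ∈ T, ∀ l ∈ T, ε * (‖A k‖ * ‖A l‖ * ‖G k l‖) ≤
        (if k = l then D * ‖A k‖ ^ 2 else 0) + δ * (‖A k‖ * ‖A l‖) := by
      intro k hk l hl
      by_cases hkl : k = l
      · subst hkl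
        rw [if_pos rfl]
        have h3 : ε * ‖G k k‖ ≤ D := by
          refine le_trans (mul_le_mul_of_nonneg_left ?_ hε.le) hD
          have h4 := (triv_bound zero_le_one (hbnd k k) (hs (τ k - τ k))).2
          rw [one_mul] at h4
          exact h4
        have h4 : 0 ≤ δ * (‖A k‖ * ‖A k‖) := by positivity
        have h5 : ε * (‖A k‖ * ‖A k‖ * ‖G k k‖) = (ε * ‖G k k‖) * ‖A k‖ ^ 2 := by ring
        rw [h5]
        have h6 := mul_le_mul_of_nonneg_right h3 (sq_nonneg ‖A k‖)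
        linarith
      · rw [if_neg hkl, zero_add]
        have h3 := hoff k hk l hl hkl
        calc ε * (‖A k‖ * ‖A l‖ * ‖G k l‖) = (ε * ‖G k l‖) * (‖A k‖ * ‖A l‖) := by ring
          _ ≤ _ := mul_le_mul_of_nonneg_right h3 (by positivity)
    have h3 : ε * ∑ k ∈ T, ∑ l ∈ T, ‖A k‖ * ‖A l‖ * ‖G k l‖ ≤
        D * W + δ * (∑ k ∈ T, ‖A k‖) ^ 2 := by
      rw [Finset.mul_sum]
      have h4 : ∀ k ∈ T, ε * ∑ l ∈ T, ‖A k‖ * ‖A l‖ * ‖G k l‖ ≤
          D * ‖A k‖ ^ 2 + δ * (‖A k‖ * ∑ l ∈ T, ‖A l‖) := by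
        intro k hk
        rw [Finset.mul_sum]
        refine (Finset.sum_le_sum fun l hl => h2 k hk l hl).trans ?_
        rw [Finset.sum_add_distrib, Finset.sum_ite_eq, if_pos hk, ← Finset.mul_sum,
          ← Finset.mul_sum]
      refine (Finset.sum_le_sum h4).trans (le_of_eq ?_)
      rw [Finset.sum_add_distrib, ← Finset.mul_sum, ← Finset.mul_sum, ← Finset.sum_mul, sq]
    have h4 : (∑ k ∈ T, ‖A k‖) ^ 2 ≤ T.card * W := sq_sum_le_card_mul_sum_sq
    have h5 := mul_le_mul_of_nonneg_left h1 hε.le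
    have h6 := mul_le_mul_of_nonneg_left h4 hδ
    calc ε * Z.re ≤ D * W + δ * (∑ k ∈ T, ‖A k‖) ^ 2 := h5.trans h3
      _ ≤ D * W + δ * (T.card * W) := by linarith
      _ = lam * W := by rw [hlam]; ring
  have h7 : ε * (lam * M ^ 2 / 2 * (LSeries (fun n => (Λ n : ℂ)) ((1 + ε : ℝ) : ℂ)).re +
      1 / (2 * lam) * Z.re) ≤ lam * M ^ 2 / 2 * D + W / 2 := by
    have h8 : lam * M ^ 2 / 2 * (ε * (LSeries (fun n => (Λ n : ℂ)) ((1 + ε : ℝ) : ℂ)).re) ≤
        lam * M ^ 2 / 2 * D := mul_le_mul_of_nonneg_left hLre (by positivity)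
    have h9 : 1 / (2 * lam) * (ε * Z.re) ≤ 1 / (2 * lam) * (lam * W) :=
      mul_le_mul_of_nonneg_left hZle (by positivity)
    have h10 : 1 / (2 * lam) * (lam * W) = W / 2 := by field_simp
    have h11 : ε * (lam * M ^ 2 / 2 * (LSeries (fun n => (Λ n : ℂ)) ((1 + ε : ℝ) : ℂ)).re +
      1 / (2 * lam) * Z.re) = lam * M ^ 2 / 2 *
        (ε * (LSeries (fun n => (Λ n : ℂ)) ((1 + ε : ℝ) : ℂ)).re) +
        1 / (2 * lam) * (ε * Z.re) := by ring
    rw [h11]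
    linarith
  have h12 : W ≤ lam * M ^ 2 * D := by linarith
  calc W ≤ lam * M ^ 2 * D := h12
    _ = M ^ 2 * D * lam := by ring

end

end Pool.Agent.Y770.SC
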