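import Pool.Agent.Y770.SC.Main

/-!
# The Bessel inequality with the second moment
-/

set_option autoImplicit false

open Complex Filter Topology Set MeasureTheory Metric NumberField IsDedekindDomain
open scoped ArithmeticFunction.vonMangoldt ComplexConjugate

namespace Pool.Agent.Y770.SC

/-- the terms of the second moment -/
noncomputable def mt (a : ℕ → ℂ) (ε : ℝ) (n : ℕ) : ℝ := ‖a n‖ ^ 2 / Λ n * wn ε n

/-- the second moment -/
noncomputable def PP2 (a : ℕ → ℂ) (ε : ℝ) : ℝ := ε * ∑' n, mt a ε n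

lemma hasSum_x {ε : ℝ} (hε : 0 < ε) : HasSum (fun n => Λ n * wn ε n)
    (LSeries (fun n => (Λ n : ℂ)) ((1 + ε : ℝ) : ℂ)).re := by
  have hs0 : 1 < (((1 + ε : ℝ) : ℂ)).re := by
    rw [ofReal_re]
    linarith
  have h1 : HasSum (LSeries.term (fun n => (Λ n : ℂ)) ((1 + ε : ℝ) : ℂ))
      (LSeries (fun n => (Λ n : ℂ)) ((1 + ε : ℝ) : ℂ)) :=
    (LSeriesSummable_Λ hs0).LSeriesHasSum
  have h2 := Complex.hasSum_re h1
  refine hs_congr h2 (fun n => ?_) rfl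
  rcases eq_or_ne n 0 with rfl | hn
  · simp
  · have e0 : ((1 + ε : ℝ) : ℂ) = ⟨1 + ε, 0⟩ := by
      apply Complex.ext <;> simp
    rw [e0, term_split ε 0 hn]
    unfold un
    simp

lemma mt_nonneg (a : ℕ → ℂ) (ε : ℝ) (n : ℕ) : 0 ≤ mt a ε n := by
  unfold mt
  have h1 : 0 ≤ Λ n := ArithmeticFunction.vonMangoldt_nonneg
  have h2 := wn_nonneg ε n
  positivity

lemma mt_le {a : ℕ → ℂ} {M : ℝ} (ha : ∀ n, ‖a n‖ ≤ M * Λ n) (ε : ℝ) (n : ℕ) :
    mt a ε n ≤ M ^ 2 * (Λ n * wn ε n) := by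
  unfold mt
  have h1 : 0 ≤ Λ n := ArithmeticFunction.vonMangoldt_nonneg
  have h2 := wn_nonneg ε n
  rw [← mul_assoc]
  refine mul_le_mul_of_nonneg_right ?_ h2
  rcases h1.eq_or_lt with h | h
  · rw [← h]
    simp
  · rw [div_le_iff₀ h]
    have h3 := pow_le_pow_left₀ (norm_nonneg _) (ha n) 2
    calc ‖a n‖ ^ 2 ≤ (M * Λ n) ^ 2 := h3
      _ = _ := by ring

lemma summable_mt {a : ℕ → ℂ} {M : ℝ} (ha : ∀ n, ‖a n‖ ≤ M * Λ n) {ε : ℝ} (hε : 0 < ε) :
    Summable (mt a ε) :=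
  Summable.of_nonneg_of_le (mt_nonneg a ε) (mt_le ha ε) ((hasSum_x hε).summable.mul_left _)

lemma PP2_nonneg (a : ℕ → ℂ) {ε : ℝ} (hε : 0 < ε) : 0 ≤ PP2 a ε :=
  mul_nonneg hε.le (tsum_nonneg (mt_nonneg a ε))

lemma PP2_le {a : ℕ → ℂ} {M : ℝ} (ha : ∀ n, ‖a n‖ ≤ M * Λ n) {ε D : ℝ} (hε : 0 < ε)
    (hD : ε * ‖LSeries (fun n => (Λ n : ℂ)) ((1 + ε : ℝ) : ℂ)‖ ≤ D) : PP2 a ε ≤ M ^ 2 * D := by
  unfold PP2
  have h1 := (summable_mt ha hε).tsum_le_tsum (mt_le ha ε) ((hasSum_x hε).summable.mul_left _)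
  rw [tsum_mul_left, (hasSum_x hε).tsum_eq] at h1
  have h2 : ε * (LSeries (fun n => (Λ n : ℂ)) ((1 + ε : ℝ) : ℂ)).re ≤ D :=
    (mul_le_mul_of_nonneg_left ((le_abs_self _).trans (abs_re_le_norm _)) hε.le).trans hD
  calc ε * ∑' n, mt a ε n ≤ ε * (M ^ 2 * (LSeries (fun n => (Λ n : ℂ))
        ((1 + ε : ℝ) : ℂ)).re) := mul_le_mul_of_nonneg_left h1 hε.le
    _ = M ^ 2 * (ε * (LSeries (fun n => (Λ n : ℂ)) ((1 + ε : ℝ) : ℂ)).re) := by ring
    _ ≤ M ^ 2 * D := mul_le_mul_of_nonneg_left h2 (by positivity)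

section
variable {ι : Type} (T : Finset ι) (q : ι → ℕ) (χ : ∀ k, DirichletCharacter ℂ (q k)) (τ : ι → ℝ)
  {a : ℕ → ℂ} {M ε : ℝ}

theorem bessel2 (hM : 0 ≤ M) (ha : ∀ n, ‖a n‖ ≤ M * Λ n) (hε : 0 < ε)
    {D δ : ℝ} (hD0 : 0 < D) (hδ : 0 ≤ δ)
    (hD : ε * ‖LSeries (fun n => (Λ n : ℂ)) ((1 + ε : ℝ) : ℂ)‖ ≤ D)
    (hoff : ∀ k ∈ T, ∀ l ∈ T, k ≠ l →
      ε * ‖LSeries (fun n : ℕ => χ k n * conj (χ l n) * (Λ n : ℂ)) ⟨1 + ε, τ k - τ l⟩‖ ≤ δ) :
    ∑ k ∈ T, ‖AA a ε (χ k) (τ k)‖ ^ 2 ≤ PP2 a ε * (D + T.card * δ) := by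
  classical
  set A : ι → ℂ := fun k => AA a ε (χ k) (τ k) with hA
  set W : ℝ := ∑ k ∈ T, ‖A k‖ ^ 2 with hW
  have hW0 : 0 ≤ W := Finset.sum_nonneg fun _ _ => by positivity
  have hs : ∀ t : ℝ, 1 < (⟨1 + ε, t⟩ : ℂ).re := fun t => by
    change 1 < 1 + ε
    linarith
  have hΛ0 : ∀ n, 0 ≤ Λ n := fun n => ArithmeticFunction.vonMangoldt_nonneg
  set e : ι → ℕ → ℂ := fun k n => χ k n * un (τ k) n with he
  set S : ℕ → ℂ := fun n => ∑ k ∈ T, conj (A k) * e k n with hS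
  set x : ℕ → ℝ := fun n => Λ n * wn ε n with hx
  have hx0 : ∀ n, 0 ≤ x n := fun n => mul_nonneg (hΛ0 n) (wn_nonneg ε n)
  -- the first series
  have hsum1 : ∀ k, HasSum (LSeries.term (fun n : ℕ => χ k n * a n) ⟨1 + ε, τ k⟩)
      (LSeries (fun n : ℕ => χ k n * a n) ⟨1 + ε, τ k⟩) := fun k =>
    (triv_bound hM (fun n => by
      rw [norm_mul]
      calc ‖χ k n‖ * ‖a n‖ ≤ 1 * (M * Λ n) :=
            mul_le_mul ((χ k).norm_le_one _) (ha n) (norm_nonneg _) zero_le_one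
        _ = M * Λ n := one_mul _) (hs _)).1.LSeriesHasSum
  have hsumA : HasSum (fun n => ∑ k ∈ T, conj (A k) * (ε *
      LSeries.term (fun n : ℕ => χ k n * a n) ⟨1 + ε, τ k⟩ n)) (W : ℂ) := by
    have h1 := hasSum_sum (s := T) fun k _ => ((hsum1 k).mul_left (ε : ℂ)).mul_left (conj (A k))
    refine hs_congr h1 (fun n => rfl) ?_
    rw [hW]
    push_cast
    refine Finset.sum_congr rfl fun k _ => ?_
    rw [← Complex.mul_conj', mul_comm]
    rfl
  have hterm : ∀ n, ‖∑ k ∈ T, conj (A k) * (ε *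
      LSeries.term (fun n : ℕ => χ k n * a n) ⟨1 + ε, τ k⟩ n)‖ ≤
      ε * (‖a n‖ * wn ε n * ‖S n‖) := by
    intro n
    rcases eq_or_ne n 0 with rfl | hn
    · have := wn_nonneg ε 0
      simp
      positivity
    · have h1 : ∑ k ∈ T, conj (A k) * (ε *
          LSeries.term (fun n : ℕ => χ k n * a n) ⟨1 + ε, τ k⟩ n) =
          ε * (a n * (wn ε n : ℂ) * S n) := by
        rw [hS, Finset.mul_sum, Finset.mul_sum]
        refine Finset.sum_congr rfl fun k _ => ?_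
        rw [term_split ε (τ k) hn, he]
        ring
      rw [h1, norm_mul, norm_mul, norm_mul, Complex.norm_real, Complex.norm_real,
        Real.norm_of_nonneg hε.le, Real.norm_of_nonneg (wn_nonneg ε n)]
  -- the weight
  have hsumx : HasSum x (LSeries (fun n => (Λ n : ℂ)) ((1 + ε : ℝ) : ℂ)).re := hasSum_x hε
  -- the Gram matrix
  set G : ι → ι → ℂ := fun k l =>
    LSeries (fun n : ℕ => χ k n * conj (χ l n) * (Λ n : ℂ)) ⟨1 + ε, τ k - τ l⟩ with hG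
  have hbnd : ∀ (k l : ι) (n : ℕ), ‖χ k n * conj (χ l n) * (Λ n : ℂ)‖ ≤ 1 * Λ n := by
    intro k l n
    rw [norm_mul, norm_mul, Complex.norm_conj, Complex.norm_real, Real.norm_of_nonneg (hΛ0 n)]
    refine mul_le_mul_of_nonneg_right ?_ (hΛ0 n)
    exact mul_le_one₀ ((χ k).norm_le_one _) (norm_nonneg _) ((χ l).norm_le_one _)
  have hsumG : ∀ k l, HasSum (fun n => (x n : ℂ) * (e k n * conj (e l n))) (G k l) := by
    intro k l
    have h1 := (triv_bound zero_le_one (hbnd k l) (hs (τ k - τ l))).1.LSeriesHasSum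
    refine hs_congr h1 (fun n => ?_) rfl
    rcases eq_or_ne n 0 with rfl | hn
    · simp [hx]
    · rw [term_split ε _ hn, ← un_mul_conj _ _ hn, he, hx]
      simp only [map_mul]
      push_cast
      ring
  set Z : ℂ := ∑ k ∈ T, ∑ l ∈ T, (conj (A k) * A l) * G k l with hZ
  have hsumZ : HasSum (fun n => x n * ‖S n‖ ^ 2) Z.re := by
    have h1 : HasSum (fun n => ∑ k ∈ T, ∑ l ∈ T, (conj (A k) * A l) *
        ((x n : ℂ) * (e k n * conj (e l n)))) Z :=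
      hasSum_sum fun k _ => hasSum_sum fun l _ => (hsumG k l).mul_left _
    have h2 := Complex.hasSum_re h1
    refine hs_congr h2 (fun n => ?_) rfl
    have h3 : ∑ k ∈ T, ∑ l ∈ T, (conj (A k) * A l) * ((x n : ℂ) * (e k n * conj (e l n))) =
        ((x n * ‖S n‖ ^ 2 : ℝ) : ℂ) := by
      push_cast
      rw [← Complex.mul_conj', hS]
      simp only [map_sum, map_mul, Complex.conj_conj]
      rw [Finset.sum_mul_sum, Finset.mul_sum]
      refine Finset.sum_congr rfl fun k _ => ?_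
      rw [Finset.mul_sum]
      refine Finset.sum_congr rfl fun l _ => ?_
      ring
    rw [h3, Complex.ofReal_re]
  -- AM-GM
  set lam : ℝ := D + T.card * δ with hlam
  have hlam0 : 0 < lam := by positivity
  have hY : HasSum (fun n => ε * ((lam * mt a ε n + x n * ‖S n‖ ^ 2 / lam) / 2))
      (ε * (lam / 2 * (∑' n, mt a ε n) + 1 / (2 * lam) * Z.re)) := by
    have h1 := (((summable_mt ha hε).hasSum.mul_left (lam / 2)).add
      (hsumZ.mul_left (1 / (2 * lam)))).mul_left ε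
    refine hs_congr h1 (fun n => ?_) rfl
    field_simp
  have hle : ∀ n, ‖∑ k ∈ T, conj (A k) * (ε *
      LSeries.term (fun n : ℕ => χ k n * a n) ⟨1 + ε, τ k⟩ n)‖ ≤
      ε * ((lam * mt a ε n + x n * ‖S n‖ ^ 2 / lam) / 2) := by
    intro n
    refine (hterm n).trans (mul_le_mul_of_nonneg_left ?_ hε.le)
    have hw := wn_nonneg ε n
    rcases (hΛ0 n).eq_or_lt with h | h
    · have h1 : ‖a n‖ ≤ 0 := by
        have := ha n
        rwa [← h, mul_zero] at this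
      have h2 : ‖a n‖ = 0 := le_antisymm h1 (norm_nonneg _)
      rw [h2, zero_mul, zero_mul]
      have h3 := mt_nonneg a ε n
      have h4 := hx0 n
      positivity
    · have h2 : ‖a n‖ * ‖S n‖ ≤ (lam * (‖a n‖ ^ 2 / Λ n) + Λ n * ‖S n‖ ^ 2 / lam) / 2 := by
        have h3 : 0 ≤ (lam * ‖a n‖ - Λ n * ‖S n‖) ^ 2 / (lam * Λ n) := by positivity
        have h4 : (lam * ‖a n‖ - Λ n * ‖S n‖) ^ 2 / (lam * Λ n) =
            lam * (‖a n‖ ^ 2 / Λ n) - 2 * (‖a n‖ * ‖S n‖) + Λ n * ‖S n‖ ^ 2 / lam := by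
          field_simp
          ring
        linarith
      have h3 := mul_le_mul_of_nonneg_right h2 hw
      calc ‖a n‖ * wn ε n * ‖S n‖ = ‖a n‖ * ‖S n‖ * wn ε n := by ring
        _ ≤ _ := h3
        _ = _ := by
          unfold mt
          simp only [hx]
          ring
  have hmain : ‖(W : ℂ)‖ ≤ ε * (lam / 2 * (∑' n, mt a ε n) + 1 / (2 * lam) * Z.re) := by
    rw [← hsumA.tsum_eq]
    exact tsum_of_norm_bounded hY hle
  rw [Complex.norm_real, Real.norm_of_nonneg hW0] at hmain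
  -- the bilinear form
  have hZle : ε * Z.re ≤ lam * W := by
    have h1 : Z.re ≤ ∑ k ∈ T, ∑ l ∈ T, ‖A k‖ * ‖A l‖ * ‖G k l‖ := by
      refine ((le_abs_self _).trans (abs_re_le_norm _)).trans ?_
      rw [hZ]
      refine (norm_sum_le _ _).trans (Finset.sum_le_sum fun k _ => (norm_sum_le _ _).trans
        (Finset.sum_le_sum fun l _ => ?_))
      rw [norm_mul, norm_mul, Complex.norm_conj]
    have h2 : ∀ k ∈ T, ∀ l ∈ T, ε * (‖A k‖ * ‖A l‖ * ‖G k l‖) ≤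
        (if k = l then D * ‖A k‖ ^ 2 else 0) + δ * (‖A k‖ * ‖A l‖) := by
      intro k hk l hl
      by_cases hkl : k = l
      · subst hkl
        rw [if_pos rfl]
        have h3 : ε * ‖G k k‖ ≤ D := by
          refine le_trans (mul_le_mul_of_nonneg_left ?_ hε.le) hD
          have h4 := (triv_bound zero_le_one (hbnd k k) (hs (τ k - τ k))).2
          rw [one_mul] at h4
          exact h4
        have h4 : 0 ≤ δ * (‖A k‖ * ‖A k‖) := by positivity
        have h5 : ε * (‖A k‖ * ‖A k‖ * ‖G k k‖) = (ε * ‖G k k‖) * ‖A k‖ ^ 2 := by ring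
        rw [h5]
        have h6 := mul_le_mul_of_nonneg_right h3 (sq_nonneg ‖A k‖)
        linarith
      · rw [if_neg hkl, zero_add]
        have h3 := hoff k hk l hl hkl
        calc ε * (‖A k‖ * ‖A l‖ * ‖G k l‖) = (ε * ‖G k l‖) * (‖A k‖ * ‖A l‖) := by ring
          _ ≤ _ := mul_le_mul_of_nonneg_right h3 (by positivity)
    have h3 : ε * ∑ k ∈ T, ∑ l ∈ T, ‖A k‖ * ‖A l‖ * ‖G k l‖ ≤
        D * W + δ * (∑ k ∈ T, ‖A k‖) ^ 2 := by
      rw [Finset.mul_sum]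
      have h4 : ∀ k ∈ T, ε * ∑ l ∈ T, ‖A k‖ * ‖A l‖ * ‖G k l‖ ≤
          D * ‖A k‖ ^ 2 + δ * (‖A k‖ * ∑ l ∈ T, ‖A l‖) := by
        intro k hk
        rw [Finset.mul_sum]
        refine (Finset.sum_le_sum fun l hl => h2 k hk l hl).trans ?_
        rw [Finset.sum_add_distrib, Finset.sum_ite_eq, if_pos hk, ← Finset.mul_sum,
          ← Finset.mul_sum]
      refine (Finset.sum_le_sum h4).trans (le_of_eq ?_)
      rw [Finset.sum_add_distrib, ← Finset.mul_sum, ← Finset.mul_sum, ← Finset.sum_mul, sq]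
    have h4 : (∑ k ∈ T, ‖A k‖) ^ 2 ≤ T.card * W := sq_sum_le_card_mul_sum_sq
    have h5 := mul_le_mul_of_nonneg_left h1 hε.le
    have h6 := mul_le_mul_of_nonneg_left h4 hδ
    calc ε * Z.re ≤ D * W + δ * (∑ k ∈ T, ‖A k‖) ^ 2 := h5.trans h3
      _ ≤ D * W + δ * (T.card * W) := by linarith
      _ = lam * W := by rw [hlam]; ring
  have h7 : ε * (lam / 2 * (∑' n, mt a ε n) + 1 / (2 * lam) * Z.re) ≤
      lam / 2 * PP2 a ε + W / 2 := by
    have h9 : 1 / (2 * lam) * (ε * Z.re) ≤ 1 / (2 * lam) * (lam * W) :=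
      mul_le_mul_of_nonneg_left hZle (by positivity)
    have h10 : 1 / (2 * lam) * (lam * W) = W / 2 := by field_simp
    have h11 : ε * (lam / 2 * (∑' n, mt a ε n) + 1 / (2 * lam) * Z.re) =
        lam / 2 * PP2 a ε + 1 / (2 * lam) * (ε * Z.re) := by
      unfold PP2
      ring
    rw [h11]
    linarith
  have h12 : W ≤ lam * PP2 a ε := by linarith
  calc W ≤ lam * PP2 a ε := h12
    _ = PP2 a ε * lam := by ring

end

theorem scale2 (M η : ℝ) (hM : 0 ≤ M) (hη : 0 < η) : ∃ A c ε₀ : ℝ, 0 < A ∧ 0 < c ∧ 0 < ε₀ ∧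
    ∀ (a : ℕ → ℂ), (∀ n, ‖a n‖ ≤ M * Λ n) → ∀ (ε : ℝ), 0 < ε → ε < ε₀ →
    (PP2 a ε ≤ M ^ 2 + η) ∧
    ∀ (ι : Type) (T : Finset ι) (q : ι → ℕ) (_ : ∀ k, NeZero (q k))
      (χ : ∀ k, DirichletCharacter ℂ (q k)) (τ : ι → ℝ),
      (∀ k ∈ T, (q k : ℝ) ≤ Real.exp (c / ε) ∧ |τ k| ≤ Real.exp (c / ε)) →
      (∀ k ∈ T, ∀ l ∈ T, k ≠ l → quo (χ k) (χ l) ^ 2 ≠ 1 ∨
        (quo (χ k) (χ l) = 1 ∧ A * ε ≤ |τ k - τ l|)) →
      (∀ k ∈ T, η ≤ ‖AA a ε (χ k) (τ k)‖) →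
      ∑ k ∈ T, ‖AA a ε (χ k) (τ k)‖ ^ 2 ≤ PP2 a ε + η := by
  obtain ⟨C0, hC0, hL⟩ := LL_bound
  obtain ⟨C, hC, hin⟩ := inner_bound
  set δ : ℝ := min (η ^ 2 / (4 * (M ^ 2 + 1))) (η ^ 3 / (32 * (M ^ 4 + 1))) with hδ
  have hδ0 : 0 < δ := lt_min (by positivity) (by positivity)
  have hδ1 : 2 * M ^ 2 * δ ≤ η ^ 2 / 2 := by
    have h1 : δ ≤ η ^ 2 / (4 * (M ^ 2 + 1)) := min_le_left _ _
    have h2 : 2 * M ^ 2 * δ ≤ 2 * (M ^ 2 + 1) * (η ^ 2 / (4 * (M ^ 2 + 1))) := by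
      refine mul_le_mul (by linarith) h1 hδ0.le (by positivity)
    have h3 : 2 * (M ^ 2 + 1) * (η ^ 2 / (4 * (M ^ 2 + 1))) = η ^ 2 / 2 := by field_simp; norm_num
    linarith
  have hδ2 : 16 * M ^ 4 * δ ≤ η ^ 3 / 2 := by
    have h1 : δ ≤ η ^ 3 / (32 * (M ^ 4 + 1)) := min_le_right _ _
    have h2 : 16 * M ^ 4 * δ ≤ 16 * (M ^ 4 + 1) * (η ^ 3 / (32 * (M ^ 4 + 1))) := by
      refine mul_le_mul (by linarith) h1 hδ0.le (by positivity)
    have h3 : 16 * (M ^ 4 + 1) * (η ^ 3 / (32 * (M ^ 4 + 1))) = η ^ 3 / 2 := by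
      field_simp; norm_num
    linarith
  set ε₀ : ℝ := min 1 (min (1 / C0) (min (δ / (6 * C)) (η / (6 * (M ^ 2 + 1) * C0)))) with hε₀
  refine ⟨3 / δ, δ / (9 * C), ε₀, by positivity, by positivity,
    lt_min one_pos (lt_min (by positivity) (lt_min (by positivity) (by positivity))), ?_⟩
  intro a ha ε hε hεε
  have hε1 : ε ≤ 1 := hεε.le.trans (min_le_left _ _)
  have hε2 : ε ≤ 1 / C0 := hεε.le.trans ((min_le_right _ _).trans (min_le_left _ _))
  have hε3 : ε ≤ δ / (6 * C) := hεε.le.trans ((min_le_right _ _).trans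
    ((min_le_right _ _).trans (min_le_left _ _)))
  have hε4 : ε ≤ η / (6 * (M ^ 2 + 1) * C0) := hεε.le.trans ((min_le_right _ _).trans
    ((min_le_right _ _).trans (min_le_right _ _)))
  have hC0ε : C0 * ε ≤ 1 := by
    have := mul_le_mul_of_nonneg_left hε2 hC0.le
    rwa [mul_one_div_cancel hC0.ne'] at this
  have hC0ε0 : 0 < C0 * ε := by positivity
  have hCε : 2 * C * ε ≤ δ / 3 := by
    have := mul_le_mul_of_nonneg_left hε3 (by positivity : 0 ≤ 2 * C)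
    have e : 2 * C * (δ / (6 * C)) = δ / 3 := by field_simp; norm_num
    linarith
  have hMε : (M ^ 2 + 1) * (3 * (C0 * ε)) ≤ η / 2 := by
    have := mul_le_mul_of_nonneg_left hε4 (by positivity : 0 ≤ (M ^ 2 + 1) * (3 * C0))
    have e : (M ^ 2 + 1) * (3 * C0) * (η / (6 * (M ^ 2 + 1) * C0)) = η / 2 := by
      field_simp; norm_num
    rw [e] at this
    linarith
  set D : ℝ := 1 + C0 * ε with hD
  have hD0 : 0 < D := by positivity
  have hD2 : D ≤ 2 := by linarith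
  have hdiag : ε * ‖LSeries (fun n => (Λ n : ℂ)) ((1 + ε : ℝ) : ℂ)‖ ≤ D := by
    have h1 := hL (1 + ε) (by linarith) (by linarith)
    have h2 := mul_le_mul_of_nonneg_left h1 hε.le
    have h3 : ε * (1 / (1 + ε - 1) + C0) = D := by
      rw [hD]
      have : (1 + ε - 1 : ℝ) = ε := by ring
      rw [this]
      field_simp
    linarith
  have hP := PP2_le ha hε hdiag
  have hP0 := PP2_nonneg a hε
  refine ⟨?_, ?_⟩
  · refine hP.trans ?_
    rw [hD]
    have h0 : 0 ≤ M ^ 2 * (C0 * ε) := by positivity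
    nlinarith
  intro ι T q hq χ τ hbd hsep hbig
  have hoff : ∀ k ∈ T, ∀ l ∈ T, k ≠ l →
      ε * ‖LSeries (fun n : ℕ => χ k n * conj (χ l n) * (Λ n : ℂ)) ⟨1 + ε, τ k - τ l⟩‖ ≤ δ := by
    intro k hk l hl hkl
    have hqk := hq k
    have hql := hq l
    have h1 := hin (q k) (q l) (χ k) (χ l) ε (τ k - τ l) hε hε1
      ((hsep k hk l hl hkl).imp id fun h => h.1)
    have hlogq : ∀ k ∈ T, Real.log (q k) ≤ δ / (9 * C) / ε := by
      intro k hk
      have h2 := Real.log_le_log (by exact_mod_cast Nat.pos_of_ne_zero (hq k).out) (hbd k hk).1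
      rwa [Real.log_exp] at h2
    have hell : Pool.Agent.W66.ell (τ k - τ l) ≤ δ / (9 * C) / ε + 2 := by
      have h2 := ell_le (u := τ k - τ l) (X := Real.exp (δ / (9 * C) / ε))
        (Real.one_le_exp (by positivity)) (by
          have := abs_sub (τ k) (τ l)
          have h3 := (hbd k hk).2
          have h4 := (hbd l hl).2
          linarith)
      rwa [Real.log_exp] at h2
    have h3 : C * (Real.log (q k) + Real.log (q l) + Pool.Agent.W66.ell (τ k - τ l)) ≤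
        C * (3 * (δ / (9 * C) / ε) + 2) := by
      refine mul_le_mul_of_nonneg_left ?_ hC.le
      have h4 := hlogq k hk
      have h5 := hlogq l hl
      linarith
    have h4 : ε * (C * (3 * (δ / (9 * C) / ε) + 2)) = δ / 3 + 2 * C * ε := by
      field_simp
      ring
    have h5 : ε * (if quo (χ k) (χ l) = 1 then 1 / max ε |τ k - τ l| else 0) ≤ δ / 3 := by
      split_ifs with hquo
      · rcases hsep k hk l hl hkl with h | h
        · exfalso
          rw [hquo] at h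
          exact h (one_pow 2)
        · have h6 : 3 / δ * ε ≤ max ε |τ k - τ l| := h.2.trans (le_max_right _ _)
          have h7 : 0 < 3 / δ * ε := by positivity
          have h8 : 1 / max ε |τ k - τ l| ≤ 1 / (3 / δ * ε) := one_div_le_one_div_of_le h7 h6
          have h9 := mul_le_mul_of_nonneg_left h8 hε.le
          have h10 : ε * (1 / (3 / δ * ε)) = δ / 3 := by field_simp
          linarith
      · rw [mul_zero]
        positivity
    have h6 := mul_le_mul_of_nonneg_left h1 hε.le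
    have h7 := mul_le_mul_of_nonneg_left h3 hε.le
    rw [mul_add] at h6
    linarith
  have hB := bessel2 T q χ τ hM ha hε hD0 hδ0.le hdiag hoff
  set W := ∑ k ∈ T, ‖AA a ε (χ k) (τ k)‖ ^ 2 with hW
  set P := PP2 a ε with hPdef
  -- the number of the elements
  have hcard : (T.card : ℝ) * η ^ 2 ≤ W := by
    rw [hW, ← nsmul_eq_mul]
    refine Finset.card_nsmul_le_sum _ _ _ fun k hk => ?_
    exact pow_le_pow_left₀ hη.le (hbig k hk) 2
  have hn0 : (0 : ℝ) ≤ T.card := Nat.cast_nonneg _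
  have hP2 : P ≤ 2 * M ^ 2 := by
    calc P ≤ M ^ 2 * D := hP
      _ ≤ M ^ 2 * 2 := mul_le_mul_of_nonneg_left hD2 (by positivity)
      _ = _ := by ring
  have h0 : W ≤ P * D + (2 * M ^ 2 * δ) * T.card := by
    have h2 : P * (D + T.card * δ) = P * D + P * (T.card * δ) := by ring
    have h3 : P * (T.card * δ) ≤ 2 * M ^ 2 * (T.card * δ) :=
      mul_le_mul_of_nonneg_right hP2 (by positivity)
    linarith
  have h2 : (T.card : ℝ) * η ^ 2 ≤ 8 * M ^ 2 := by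
    have h3 : (2 * M ^ 2 * δ) * T.card ≤ η ^ 2 / 2 * T.card :=
      mul_le_mul_of_nonneg_right hδ1 hn0
    have h4 : P * D ≤ 2 * M ^ 2 * 2 := mul_le_mul hP2 hD2 hD0.le (by positivity)
    nlinarith
  have h3 : (2 * M ^ 2 * δ) * T.card ≤ η / 2 := by
    have h4 : (2 * M ^ 2 * δ) * (T.card * η ^ 2) ≤ (2 * M ^ 2 * δ) * (8 * M ^ 2) :=
      mul_le_mul_of_nonneg_left h2 (by positivity)
    have h5 : (2 * M ^ 2 * δ) * (8 * M ^ 2) = 16 * M ^ 4 * δ := by ring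
    have h6 : (2 * M ^ 2 * δ) * T.card * η ^ 2 ≤ η / 2 * η ^ 2 := by
      calc (2 * M ^ 2 * δ) * T.card * η ^ 2 = (2 * M ^ 2 * δ) * (T.card * η ^ 2) := by ring
        _ ≤ η ^ 3 / 2 := by linarith
        _ = _ := by ring
    exact le_of_mul_le_mul_right h6 (by positivity)
  have h4 : P * D ≤ P + η / 2 := by
    have h5 : P * D = P + P * (C0 * ε) := by rw [hD]; ring
    have h6 : P * (C0 * ε) ≤ 2 * M ^ 2 * (C0 * ε) := mul_le_mul_of_nonneg_right hP2 hC0ε0.le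
    have h7 : 0 ≤ M ^ 2 * (C0 * ε) := by positivity
    rw [h5]
    nlinarith
  linarith

end Pool.Agent.Y770.SC
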