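import Pool.Agent.Y770.SC.Rep

/-!
# Singularities at every scale: the choice of the constants
-/

set_option autoImplicit false

open Complex Filter Topology Set MeasureTheory Metric NumberField IsDedekindDomain
open scoped ArithmeticFunction.vonMangoldt ComplexConjugate

namespace Pool.Agent.Y770.SC

open Pool.Agent.W66 (ell one_le_ell)

lemma ell_le {u X : ℝ} (hX : 1 ≤ X) (hu : |u| ≤ 2 * X) : ell u ≤ Real.log X + 2 := by
  unfold ell
  have h1 : |u| + 3 ≤ X * 5 := by linarith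
  have h2 := Real.log_le_log (by positivity) h1
  rw [Real.log_mul (by linarith) (by norm_num)] at h2
  have h3 : Real.log 5 ≤ 2 := by
    rw [Real.log_le_iff_le_exp (by norm_num)]
    have h4 : (2.7 : ℝ) ≤ Real.exp 1 := by linarith [Real.exp_one_gt_d9]
    have h5 : Real.exp 2 = Real.exp 1 * Real.exp 1 := by rw [← Real.exp_add]; norm_num
    rw [h5]
    nlinarith
  linarith

theorem scale (M η : ℝ) (hM : 0 ≤ M) (hη : 0 < η) : ∃ A c ε₀ : ℝ, 0 < A ∧ 0 < c ∧ 0 < ε₀ ∧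
    ∀ (a : ℕ → ℂ), (∀ n, ‖a n‖ ≤ M * Λ n) → ∀ (ε : ℝ), 0 < ε → ε < ε₀ →
    ∀ (ι : Type) (T : Finset ι) (q : ι → ℕ) (_ : ∀ k, NeZero (q k))
      (χ : ∀ k, DirichletCharacter ℂ (q k)) (τ : ι → ℝ),
      (∀ k ∈ T, (q k : ℝ) ≤ Real.exp (c / ε) ∧ |τ k| ≤ Real.exp (c / ε)) →
      (∀ k ∈ T, ∀ l ∈ T, k ≠ l → quo (χ k) (χ l) ^ 2 ≠ 1 ∨
        (quo (χ k) (χ l) = 1 ∧ A * ε ≤ |τ k - τ l|)) →
      (∀ k ∈ T, η ≤ ‖AA a ε (χ k) (τ k)‖) →
      ∑ k ∈ T, ‖AA a ε (χ k) (τ k)‖ ^ 2 ≤ M ^ 2 + η := by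
  obtain ⟨C0, hC0, hL⟩ := LL_bound
  obtain ⟨C, hC, hin⟩ := inner_bound
  set δ : ℝ := min (η ^ 2 / (4 * (M ^ 2 + 1))) (η ^ 3 / (32 * (M ^ 4 + 1))) with hδ
  have hδ0 : 0 < δ := lt_min (by positivity) (by positivity)
  have hδ1 : 2 * M ^ 2 * δ ≤ η ^ 2 / 2 := by
    have h1 : δ ≤ η ^ 2 / (4 * (M ^ 2 + 1)) := min_le_left _ _
    have h2 : 2 * M ^ 2 * δ ≤ 2 * (M ^ 2 + 1) * (η ^ 2 / (4 * (M ^ 2 + 1))) := by
      refine mul_le_mul (by linarith) h1 hδ0.le (by positivity)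
    have h3 : 2 * (M ^ 2 + 1) * (η ^ 2 / (4 * (M ^ 2 + 1))) = η ^ 2 / 2 := by field_simp; norm_num
    linarith
  have hδ2 : 16 * M ^ 4 * δ ≤ η ^ 3 / 2 := by
    have h1 : δ ≤ η ^ 3 / (32 * (M ^ 4 + 1)) := min_le_right _ _
    have h2 : 16 * M ^ 4 * δ ≤ 16 * (M ^ 4 + 1) * (η ^ 3 / (32 * (M ^ 4 + 1))) := by
      refine mul_le_mul (by linarith) h1 hδ0.le (by positivity)
    have h3 : 16 * (M ^ 4 + 1) * (η ^ 3 / (32 * (M ^ 4 + 1))) = η ^ 3 / 2 := by
      field_simp; norm_num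
    linarith
  set ε₀ : ℝ := min 1 (min (1 / C0) (min (δ / (6 * C)) (η / (6 * (M ^ 2 + 1) * C0)))) with hε₀
  refine ⟨3 / δ, δ / (9 * C), ε₀, by positivity, by positivity,
    lt_min one_pos (lt_min (by positivity) (lt_min (by positivity) (by positivity))), ?_⟩
  intro a ha ε hε hεε ι T q hq χ τ hbd hsep hbig
  have hε1 : ε ≤ 1 := hεε.le.trans (min_le_left _ _)
  have hε2 : ε ≤ 1 / C0 := hεε.le.trans ((min_le_right _ _).trans (min_le_left _ _))
  have hε3 : ε ≤ δ / (6 * C) := hεε.le.trans ((min_le_right _ _).trans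
    ((min_le_right _ _).trans (min_le_left _ _)))
  have hε4 : ε ≤ η / (6 * (M ^ 2 + 1) * C0) := hεε.le.trans ((min_le_right _ _).trans
    ((min_le_right _ _).trans (min_le_right _ _)))
  have hC0ε : C0 * ε ≤ 1 := by
    have := mul_le_mul_of_nonneg_left hε2 hC0.le
    rwa [mul_one_div_cancel hC0.ne'] at this
  have hCε : 2 * C * ε ≤ δ / 3 := by
    have := mul_le_mul_of_nonneg_left hε3 (by positivity : 0 ≤ 2 * C)
    have e : 2 * C * (δ / (6 * C)) = δ / 3 := by field_simp; norm_num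
    linarith
  have hMε : (M ^ 2 + 1) * (3 * (C0 * ε)) ≤ η / 2 := by
    have := mul_le_mul_of_nonneg_left hε4 (by positivity : 0 ≤ (M ^ 2 + 1) * (3 * C0))
    have e : (M ^ 2 + 1) * (3 * C0) * (η / (6 * (M ^ 2 + 1) * C0)) = η / 2 := by
      field_simp; norm_num
    rw [e] at this
    linarith
  set D : ℝ := 1 + C0 * ε with hD
  have hD0 : 0 < D := by positivity
  have hD2 : D ≤ 2 := by linarith
  have hdiag : ε * ‖LSeries (fun n => (Λ n : ℂ)) ((1 + ε : ℝ) : ℂ)‖ ≤ D := by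
    have h1 := hL (1 + ε) (by linarith) (by linarith)
    have h2 := mul_le_mul_of_nonneg_left h1 hε.le
    have h3 : ε * (1 / (1 + ε - 1) + C0) = D := by
      rw [hD]
      have : (1 + ε - 1 : ℝ) = ε := by ring
      rw [this]
      field_simp
    linarith
  have hoff : ∀ k ∈ T, ∀ l ∈ T, k ≠ l →
      ε * ‖LSeries (fun n : ℕ => χ k n * conj (χ l n) * (Λ n : ℂ)) ⟨1 + ε, τ k - τ l⟩‖ ≤ δ := by
    intro k hk l hl hkl
    have hqk := hq k
    have hql := hq l
    have h1 := hin (q k) (q l) (χ k) (χ l) ε (τ k - τ l) hε hε1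
      ((hsep k hk l hl hkl).imp id fun h => h.1)
    have hlogq : ∀ k ∈ T, Real.log (q k) ≤ δ / (9 * C) / ε := by
      intro k hk
      have h2 := Real.log_le_log (by exact_mod_cast Nat.pos_of_ne_zero (hq k).out) (hbd k hk).1
      rwa [Real.log_exp] at h2
    have hell : ell (τ k - τ l) ≤ δ / (9 * C) / ε + 2 := by
      have h2 := ell_le (u := τ k - τ l) (X := Real.exp (δ / (9 * C) / ε))
        (Real.one_le_exp (by positivity)) (by
          have := abs_sub (τ k) (τ l)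
          have h3 := (hbd k hk).2
          have h4 := (hbd l hl).2
          linarith)
      rwa [Real.log_exp] at h2
    have h3 : C * (Real.log (q k) + Real.log (q l) + ell (τ k - τ l)) ≤
        C * (3 * (δ / (9 * C) / ε) + 2) := by
      refine mul_le_mul_of_nonneg_left ?_ hC.le
      have h4 := hlogq k hk
      have h5 := hlogq l hl
      linarith
    have h4 : ε * (C * (3 * (δ / (9 * C) / ε) + 2)) = δ / 3 + 2 * C * ε := by
      field_simp
      ring
    have h5 : ε * (if quo (χ k) (χ l) = 1 then 1 / max ε |τ k - τ l| else 0) ≤ δ / 3 := by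
      split_ifs with hquo
      · rcases hsep k hk l hl hkl with h | h
        · exfalso
          rw [hquo] at h
          exact h (one_pow 2)
        · have h6 : 3 / δ * ε ≤ max ε |τ k - τ l| := h.2.trans (le_max_right _ _)
          have h7 : 0 < 3 / δ * ε := by positivity
          have h8 : 1 / max ε |τ k - τ l| ≤ 1 / (3 / δ * ε) := one_div_le_one_div_of_le h7 h6
          have h9 := mul_le_mul_of_nonneg_left h8 hε.le
          have h10 : ε * (1 / (3 / δ * ε)) = δ / 3 := by field_simp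
          linarith
      · rw [mul_zero]
        positivity
    have h6 := mul_le_mul_of_nonneg_left h1 hε.le
    have h7 := mul_le_mul_of_nonneg_left h3 hε.le
    rw [mul_add] at h6
    linarith
  have hB := bessel T q χ τ hM ha hε hD0 hδ0.le hdiag hoff
  set W := ∑ k ∈ T, ‖AA a ε (χ k) (τ k)‖ ^ 2 with hW
  -- the number of the elements
  have hcard : (T.card : ℝ) * η ^ 2 ≤ W := by
    rw [hW, ← nsmul_eq_mul]
    refine Finset.card_nsmul_le_sum _ _ _ fun k hk => ?_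
    exact pow_le_pow_left₀ hη.le (hbig k hk) 2
  have hn0 : (0 : ℝ) ≤ T.card := Nat.cast_nonneg _
  have h1 : M ^ 2 * D * (D + T.card * δ) ≤ M ^ 2 * D ^ 2 + (2 * M ^ 2 * δ) * T.card := by
    have h2 : M ^ 2 * D * (D + T.card * δ) = M ^ 2 * D ^ 2 + (M ^ 2 * δ * T.card) * D := by ring
    have h3 : (M ^ 2 * δ * T.card) * D ≤ (M ^ 2 * δ * T.card) * 2 :=
      mul_le_mul_of_nonneg_left hD2 (by positivity)
    rw [h2]
    linarith
  have h2 : (T.card : ℝ) * η ^ 2 ≤ 8 * M ^ 2 := by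
    have h3 : (2 * M ^ 2 * δ) * T.card ≤ η ^ 2 / 2 * T.card :=
      mul_le_mul_of_nonneg_right hδ1 hn0
    have h4 : M ^ 2 * D ^ 2 ≤ M ^ 2 * 4 := mul_le_mul_of_nonneg_left (by nlinarith) (by positivity)
    nlinarith
  have h3 : (2 * M ^ 2 * δ) * T.card ≤ η / 2 := by
    have h4 : (2 * M ^ 2 * δ) * (T.card * η ^ 2) ≤ (2 * M ^ 2 * δ) * (8 * M ^ 2) :=
      mul_le_mul_of_nonneg_left h2 (by positivity)
    have h5 : (2 * M ^ 2 * δ) * (8 * M ^ 2) = 16 * M ^ 4 * δ := by ring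
    have h6 : (2 * M ^ 2 * δ) * T.card * η ^ 2 ≤ η / 2 * η ^ 2 := by
      calc (2 * M ^ 2 * δ) * T.card * η ^ 2 = (2 * M ^ 2 * δ) * (T.card * η ^ 2) := by ring
        _ ≤ η ^ 3 / 2 := by linarith
        _ = _ := by ring
    exact le_of_mul_le_mul_right h6 (by positivity)
  have h4 : M ^ 2 * D ^ 2 ≤ M ^ 2 + η / 2 := by
    have h5 : D ^ 2 ≤ 1 + 3 * (C0 * ε) := by
      rw [hD]
      have : 0 ≤ C0 * ε := by positivity
      nlinarith
    have h6 := mul_le_mul_of_nonneg_left h5 (by positivity : 0 ≤ M ^ 2)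
    have h7 : 0 ≤ C0 * ε := by positivity
    nlinarith
  linarith

end Pool.Agent.Y770.SC
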