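import Pool.Agent.Y770.SC.BS2

/-!
# The second moment as a sum over prime powers
-/

set_option autoImplicit false

open Complex Filter Topology Set MeasureTheory Metric NumberField IsDedekindDomain
open scoped ArithmeticFunction.vonMangoldt ComplexConjugate

namespace Pool.Agent.Y770.SC

open Pool.Agent.TH339.MP (PP FF bb norm_bb hasProd_L nm dg dg_pos pr nm_eq Sp mem_Sp qq aco aco_qq
  hasSum_aco qq_injective two_le_qq log_qq)

variable {K : Type} [Field K] [NumberField K] {N : ℕ}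

open Classical in
/-- the trace of the `m`-th power of Frobenius at `p` on the induced representation, normalised -/
noncomputable def trI (i : ℕ) (S : Set (HeightOneSpectrum (𝓞 K)))
    (α : HeightOneSpectrum (𝓞 K) → Fin N → ℂ) (p : Nat.Primes) (m : ℕ) : ℂ :=
  (∑' v : HeightOneSpectrum (𝓞 K), ∑ f ∈ m.divisors,
    if v ∉ S ∧ Ideal.absNorm v.asIdeal = (p : ℕ) ^ f then (f : ℂ) * ∑ j, α v j ^ (m / f) else 0) /
    ((((p : ℕ) : ℝ) ^ ((m : ℝ) * ((i : ℝ) / 2)) : ℝ) : ℂ)

lemma trI_eq (i : ℕ) (S : Set (HeightOneSpectrum (𝓞 K)))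
    (α : HeightOneSpectrum (𝓞 K) → Fin N → ℂ) (x : PP) :
    trI i S α x.1 (x.2 + 1) = ((x.2 + 1 : ℕ) : ℂ) * bb (nb i S α) x := by
  classical
  set m := x.2 + 1 with hm
  have hm0 : m ≠ 0 := by omega
  have hp := x.1.2
  -- the terms
  have hterm : ∀ v : HeightOneSpectrum (𝓞 K), (∑ f ∈ m.divisors,
      if v ∉ S ∧ Ideal.absNorm v.asIdeal = (x.1 : ℕ) ^ f then (f : ℂ) * ∑ j, α v j ^ (m / f)
        else 0) =
      if pr v = x.1 ∧ dg v ∣ m ∧ v ∉ S then (dg v : ℂ) * ∑ j, α v j ^ (m / dg v) else 0 := by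
    intro v
    have hnm : Ideal.absNorm v.asIdeal = ((pr v : ℕ)) ^ dg v := nm_eq v
    by_cases h : pr v = x.1 ∧ dg v ∣ m ∧ v ∉ S
    · rw [if_pos h]
      have hd : dg v ∈ m.divisors := Nat.mem_divisors.2 ⟨h.2.1, hm0⟩
      rw [Finset.sum_eq_single_of_mem (dg v) hd]
      · rw [if_pos ⟨h.2.2, by rw [hnm, h.1]⟩]
      · intro f hf hne
        rw [if_neg]
        rintro ⟨-, h2⟩
        rw [hnm, h.1] at h2
        exact hne (Nat.pow_right_injective hp.two_le h2).symm
    · rw [if_neg h]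
      refine Finset.sum_eq_zero fun f hf => ?_
      rw [if_neg]
      rintro ⟨h1, h2⟩
      rw [hnm] at h2
      have hf0 : 0 < f := Nat.pos_of_mem_divisors hf
      have h3 : ((pr v : ℕ)) ∣ (x.1 : ℕ) ^ f := by
        rw [← h2]
        exact dvd_pow_self _ (dg_pos v).ne'
      have h4 : (pr v : ℕ) = (x.1 : ℕ) :=
        (Nat.prime_dvd_prime_iff_eq (pr v).2 hp).1 ((pr v).2.dvd_of_dvd_pow h3)
      have h5 : pr v = x.1 := Subtype.ext h4
      rw [h5] at h2
      have h6 : dg v = f := Nat.pow_right_injective hp.two_le h2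
      exact h ⟨h5, h6 ▸ (Nat.mem_divisors.1 hf).1, h1⟩
  unfold trI
  rw [tsum_congr hterm]
  have hsupp : ∀ v, v ∉ (Sp x.1 : Finset (HeightOneSpectrum (𝓞 K))) →
      (if pr v = x.1 ∧ dg v ∣ m ∧ v ∉ S then (dg v : ℂ) * ∑ j, α v j ^ (m / dg v) else 0) = 0 := by
    intro v hv
    rw [if_neg]
    rintro ⟨h1, -⟩
    exact hv ((mem_Sp _ _).2 h1)
  rw [tsum_eq_sum hsupp, Finset.sum_div]
  unfold Pool.Agent.TH339.MP.bb
  rw [Finset.mul_sum]
  refine Finset.sum_congr rfl fun v hv => ?_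
  have hv' : pr v = x.1 := (mem_Sp _ _).1 hv
  rw [← hm]
  by_cases hd : dg v ∣ m
  · rw [if_pos hd]
    by_cases hS : v ∈ S
    · rw [if_neg fun h => h.2.2 hS, zero_div]
      have h1 : ∑ j, nb i S α v j ^ (m / dg v) = 0 := by
        refine Finset.sum_eq_zero fun j _ => ?_
        unfold nb
        rw [if_pos hS]
        refine zero_pow ?_
        have := Nat.div_pos (Nat.le_of_dvd (by omega) hd) (dg_pos v)
        omega
      rw [h1, zero_mul, mul_zero]
    · rw [if_pos ⟨hv', hd, hS⟩]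
      obtain ⟨e, he⟩ := hd
      have hdg := dg_pos v
      have hde : m / dg v = e := by
        rw [he, Nat.mul_div_cancel_left _ hdg]
      rw [hde]
      have hp0 : (0 : ℝ) < ((x.1 : ℕ) : ℝ) := by exact_mod_cast hp.pos
      have h1 : ∀ j, nb i S α v j ^ e = α v j ^ e /
          ((((x.1 : ℕ) : ℝ) ^ ((m : ℝ) * ((i : ℝ) / 2)) : ℝ) : ℂ) := by
        intro j
        unfold nb
        rw [if_neg hS, div_pow, ← Complex.ofReal_pow]
        congr 2
        have h2 : (nm v : ℝ) = ((x.1 : ℕ) : ℝ) ^ (dg v : ℝ) := by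
          rw [nm_eq v, hv']
          push_cast
          rw [Real.rpow_natCast]
        rw [h2, ← Real.rpow_mul hp0.le, ← Real.rpow_natCast, ← Real.rpow_mul hp0.le]
        congr 1
        rw [he]
        push_cast
        ring
      simp only [h1]
      rw [← Finset.sum_div]
      have hmc : ((m : ℕ) : ℂ) ≠ 0 := by exact_mod_cast hm0
      field_simp
  · rw [if_neg fun h => hd h.2.1, if_neg hd, zero_div, mul_zero]

/-- the second moment -/
noncomputable def moment (i : ℕ) (S : Set (HeightOneSpectrum (𝓞 K)))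
    (α : HeightOneSpectrum (𝓞 K) → Fin N → ℂ) (ε : ℝ) : ℝ :=
  ε * ∑' (x : Nat.Primes × ℕ), ‖trI i S α x.1 (x.2 + 1)‖ ^ 2 * Real.log (x.1 : ℕ) *
    ((x.1 : ℕ) : ℝ) ^ (-(((x.2 + 1 : ℕ) : ℝ) * (1 + ε)))

theorem moment_eq (i : ℕ) (S : Set (HeightOneSpectrum (𝓞 K)))
    (α : HeightOneSpectrum (𝓞 K) → Fin N → ℂ) (ε : ℝ) :
    PP2 (cof (bb (nb i S α))) ε = moment i S α ε := by
  unfold PP2 moment
  congr 1
  have hsupp : Function.support (mt (cof (bb (nb i S α))) ε) ⊆ Set.range qq := by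
    intro n hn
    by_contra h
    apply hn
    have h1 : aco (bb (nb i S α)) n = 0 := by
      unfold Pool.Agent.TH339.MP.aco
      rw [dif_neg]
      rintro ⟨x, hx⟩
      exact h ⟨x, hx⟩
    unfold mt cof
    rw [h1]
    simp
  rw [← qq_injective.tsum_eq hsupp]
  refine tsum_congr fun x => ?_
  have hp := x.1.2
  have hp0 : (0 : ℝ) < ((x.1 : ℕ) : ℝ) := by exact_mod_cast hp.pos
  have hlog : 0 < Real.log (x.1 : ℕ) := Real.log_pos (by exact_mod_cast hp.one_lt)
  rw [trI_eq]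
  unfold mt cof wn
  have h1 : Λ (qq x) = Real.log (x.1 : ℕ) := by
    unfold Pool.Agent.TH339.MP.qq
    rw [ArithmeticFunction.vonMangoldt_apply_pow (by omega),
      ArithmeticFunction.vonMangoldt_apply_prime x.1.2]
  have h2 : ((qq x : ℕ) : ℝ) ^ (-(1 + ε)) =
      ((x.1 : ℕ) : ℝ) ^ (-(((x.2 + 1 : ℕ) : ℝ) * (1 + ε))) := by
    unfold Pool.Agent.TH339.MP.qq
    push_cast
    rw [← Real.rpow_natCast, ← Real.rpow_mul hp0.le]
    congr 1
    push_cast
    ring
  rw [h1, h2, aco_qq, log_qq, norm_mul, norm_mul, Complex.norm_real, Complex.norm_natCast,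
    Real.norm_of_nonneg (by positivity)]
  field_simp

end Pool.Agent.Y770.SC
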