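import Pool.Agent.W66.LB
import Pool.Agent.W66.ZC

/-!
# The logarithmic derivatives of `ζ(s)` and `L(s, χ)` to the right of `1` are `O(log)`
-/

set_option autoImplicit false

open Complex Filter Topology Set MeasureTheory Metric
open scoped ArithmeticFunction.vonMangoldt

namespace Pool.Agent.Y770.SC

open H370 H370.Loc Pool.Agent.W66 Pool.Agent.W66L

lemma one_term {ρ : ℂ} {t L c σ : ℝ} (hL : 1 ≤ L) (hc : 0 < c) (hσ1 : 1 ≤ σ)
    (hσ2 : σ ≤ 1 + 1 / L) (hρ : ρ.re ≤ 1 - c / L) :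
    ‖1 / ((⟨σ, t⟩ : ℂ) - ρ) - 1 / ((⟨1 + 1 / L, t⟩ : ℂ) - ρ)‖ ≤
      (1 + 1 / c) * (1 / ((⟨1 + 1 / L, t⟩ : ℂ) - ρ)).re := by
  have hL0 : 0 < L := by linarith
  have hcL : 0 < c / L := by positivity
  have hiL : 0 < 1 / L := by positivity
  set z : ℂ := ⟨σ, t⟩ - ρ with hz
  set w : ℂ := ⟨1 + 1 / L, t⟩ - ρ with hw
  have hzre : c / L ≤ z.re := by
    rw [hz, sub_re]
    change c / L ≤ σ - ρ.re
    linarith
  have hwre : 1 / L ≤ w.re := by
    rw [hw, sub_re]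
    change 1 / L ≤ 1 + 1 / L - ρ.re
    linarith
  have hz0 : 0 < ‖z‖ := lt_of_lt_of_le (by linarith) ((le_abs_self _).trans (abs_re_le_norm z))
  have hw0 : 0 < ‖w‖ := lt_of_lt_of_le (by linarith) ((le_abs_self _).trans (abs_re_le_norm w))
  have hz1 : c / L ≤ ‖z‖ := hzre.trans ((le_abs_self _).trans (abs_re_le_norm z))
  have hwz : w - z = ((1 + 1 / L - σ : ℝ) : ℂ) := by
    rw [hz, hw]
    apply Complex.ext <;> simp
  have hd : ‖w - z‖ ≤ 1 / L := by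
    rw [hwz, Complex.norm_real, Real.norm_eq_abs, abs_le]
    constructor <;> linarith
  have h1 : ‖w‖ ≤ (1 + 1 / c) * ‖z‖ := by
    have e1 : ‖w‖ ≤ ‖z‖ + ‖w - z‖ := by
      calc ‖w‖ = ‖z + (w - z)‖ := by congr 1; ring
        _ ≤ _ := norm_add_le _ _
    have e2 : 1 / L ≤ 1 / c * ‖z‖ := by
      calc 1 / L = 1 / c * (c / L) := by field_simp
        _ ≤ _ := mul_le_mul_of_nonneg_left hz1 (by positivity)
    linarith
  have hne : z ≠ 0 := norm_pos_iff.1 hz0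
  have hne' : w ≠ 0 := norm_pos_iff.1 hw0
  have e : 1 / z - 1 / w = (w - z) / (z * w) := by
    field_simp
  rw [e, norm_div, norm_mul]
  have hre : (1 / w).re = w.re / ‖w‖ ^ 2 := by
    rw [one_div, Complex.inv_re, Complex.normSq_eq_norm_sq]
  rw [hre]
  have h2 : ‖w - z‖ / (‖z‖ * ‖w‖) ≤ (1 / L) * ((1 + 1 / c) / ‖w‖ ^ 2) := by
    rw [div_eq_mul_one_div]
    refine mul_le_mul hd ?_ (by positivity) (by positivity)
    rw [div_le_div_iff₀ (by positivity) (by positivity)]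
    nlinarith
  refine h2.trans ?_
  have h3 : (1 / L) * ((1 + 1 / c) / ‖w‖ ^ 2) = (1 + 1 / c) * ((1 / L) / ‖w‖ ^ 2) := by ring
  rw [h3]
  have h4 : (1 / L) / ‖w‖ ^ 2 ≤ w.re / ‖w‖ ^ 2 := div_le_div_of_nonneg_right hwre (by positivity)
  exact mul_le_mul_of_nonneg_left h4 (by positivity)

lemma all_terms (m : Multiset ℂ) {t L c σ : ℝ} (hL : 1 ≤ L) (hc : 0 < c) (hσ1 : 1 ≤ σ)
    (hσ2 : σ ≤ 1 + 1 / L) (hm : ∀ ρ ∈ m, ρ.re ≤ 1 - c / L) :
    ‖(m.map fun ρ => 1 / ((⟨σ, t⟩ : ℂ) - ρ)).sum -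
      (m.map fun ρ => 1 / ((⟨1 + 1 / L, t⟩ : ℂ) - ρ)).sum‖ ≤
      (1 + 1 / c) * ((m.map fun ρ => 1 / ((⟨1 + 1 / L, t⟩ : ℂ) - ρ)).sum).re := by
  induction m using Multiset.induction_on with
  | empty => simp
  | cons a m ih =>
    have h1 := one_term (t := t) hL hc hσ1 hσ2 (hm a (Multiset.mem_cons_self a m))
    have h2 := ih fun ρ hρ => hm ρ (Multiset.mem_cons_of_mem hρ)
    rw [Multiset.map_cons, Multiset.sum_cons, Multiset.map_cons, Multiset.sum_cons, add_sub_add_comm,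
      add_re, mul_add]
    exact (norm_add_le _ _).trans (add_le_add h1 h2)

/-- the abstract form: from a partial fraction expansion and a zero free region to `O(log)` -/
lemma log_core {D : ℂ → ℂ} (m : Multiset ℂ) {t L c K A : ℝ} (hL : 1 ≤ L) (hc : 0 < c)
    (hm : ∀ ρ ∈ m, ρ.re ≤ 1 - c / L)
    (hK : ∀ σ : ℝ, 1 < σ → σ ≤ 2 →
      ‖D ⟨σ, t⟩ - (m.map fun ρ => 1 / ((⟨σ, t⟩ : ℂ) - ρ)).sum‖ ≤ K)
    (hA : ‖D ⟨1 + 1 / L, t⟩‖ ≤ A) {σ : ℝ} (hσ1 : 1 < σ) (hσ2 : σ ≤ 1 + 1 / L) :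
    ‖D ⟨σ, t⟩‖ ≤ K + (2 + 1 / c) * (A + K) := by
  have hL0 : 0 < L := by linarith
  have hiL : 0 < 1 / L := by positivity
  have hiL1 : 1 / L ≤ 1 := by rw [div_le_one hL0]; exact hL
  have h1 := hK σ hσ1 (by linarith)
  have h2 := hK (1 + 1 / L) (by linarith) (by linarith)
  have h3 := all_terms (t := t) m hL hc hσ1.le hσ2 hm
  set P := (m.map fun ρ => 1 / ((⟨σ, t⟩ : ℂ) - ρ)).sum
  set Q := (m.map fun ρ => 1 / ((⟨1 + 1 / L, t⟩ : ℂ) - ρ)).sum
  have hQ : ‖Q‖ ≤ A + K := by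
    calc ‖Q‖ = ‖D ⟨1 + 1 / L, t⟩ - (D ⟨1 + 1 / L, t⟩ - Q)‖ := by congr 1; ring
      _ ≤ _ := norm_sub_le _ _
      _ ≤ _ := add_le_add hA h2
  have hP : ‖P‖ ≤ (2 + 1 / c) * (A + K) := by
    have e1 : ‖P‖ ≤ ‖P - Q‖ + ‖Q‖ := by
      calc ‖P‖ = ‖(P - Q) + Q‖ := by congr 1; ring
        _ ≤ _ := norm_add_le _ _
    have e2 : Q.re ≤ ‖Q‖ := (le_abs_self _).trans (abs_re_le_norm Q)
    have e3 : (1 + 1 / c) * Q.re ≤ (1 + 1 / c) * (A + K) :=
      mul_le_mul_of_nonneg_left (e2.trans hQ) (by positivity)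
    have e4 : (2 + 1 / c) * (A + K) = (1 + 1 / c) * (A + K) + (A + K) := by ring
    linarith
  calc ‖D ⟨σ, t⟩‖ = ‖(D ⟨σ, t⟩ - P) + P‖ := by congr 1; ring
    _ ≤ _ := norm_add_le _ _
    _ ≤ _ := add_le_add h1 hP

/-- the Dirichlet series of `Λ` at real points -/
lemma LL_bound : ∃ C : ℝ, 0 < C ∧ ∀ σ : ℝ, 1 < σ → σ ≤ 2 →
    ‖LSeries (fun n => (Λ n : ℂ)) (σ : ℂ)‖ ≤ 1 / (σ - 1) + C := by
  obtain ⟨c, C, hc, -, hC, h⟩ := zf_bound
  refine ⟨C * (ell 0) ^ 2, by have := one_le_ell 0; positivity, fun σ h1 h2 => ?_⟩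
  have hs : (1 : ℝ) < (σ : ℂ).re := by simpa using h1
  rw [LSeries_eq_DD hs]
  have h3 := (h (σ : ℂ) (by
    simp only [ofReal_im, ofReal_re]
    have : 0 < c / ell 0 := div_pos hc (by linarith [one_le_ell 0])
    linarith) (by simpa using h2)).2
  rw [ofReal_im] at h3
  refine (norm_sub_le _ _).trans (add_le_add ?_ h3)
  have e : (σ : ℂ) - 1 = ((σ - 1 : ℝ) : ℂ) := by push_cast; ring
  rw [e, norm_div, norm_one, Complex.norm_real, Real.norm_of_nonneg (by linarith)]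

lemma LSeriesSummable_Λ {s : ℂ} (hs : 1 < s.re) :
    LSeriesSummable (fun n => (Λ n : ℂ)) s :=
  ArithmeticFunction.LSeriesSummable_vonMangoldt hs

/-- any Dirichlet series majorised by `Λ` -/
lemma triv_bound {f : ℕ → ℂ} {M : ℝ} (hM : 0 ≤ M) (hf : ∀ n, ‖f n‖ ≤ M * Λ n) {s : ℂ}
    (hs : 1 < s.re) : LSeriesSummable f s ∧
      ‖LSeries f s‖ ≤ M * ‖LSeries (fun n => (Λ n : ℂ)) (s.re : ℂ)‖ := by
  have hs' : 1 < ((s.re : ℝ) : ℂ).re := by simpa using hs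
  have h1 := LSeriesSummable_Λ hs'
  have hterm : ∀ n, ‖LSeries.term f s n‖ ≤ M * ‖LSeries.term (fun n => (Λ n : ℂ)) (s.re : ℂ) n‖ := by
    intro n
    rcases eq_or_ne n 0 with rfl | hn
    · simp
    · rw [LSeries.norm_term_eq, LSeries.norm_term_eq, if_neg hn, if_neg hn, ofReal_re,
        Complex.norm_real, Real.norm_of_nonneg ArithmeticFunction.vonMangoldt_nonneg,
        ← mul_div_assoc]
      exact div_le_div_of_nonneg_right (hf n) (by positivity)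
  have hsum : Summable fun n => M * ‖LSeries.term (fun n => (Λ n : ℂ)) (s.re : ℂ) n‖ :=
    h1.norm.mul_left M
  have h2 : LSeriesSummable f s := Summable.of_norm_bounded hsum hterm
  refine ⟨h2, ?_⟩
  have h3 : ∑' n, ‖LSeries.term (fun n => (Λ n : ℂ)) (s.re : ℂ) n‖ =
      ‖LSeries (fun n => (Λ n : ℂ)) (s.re : ℂ)‖ := by
    have e1 : ∀ n, LSeries.term (fun n => (Λ n : ℂ)) (s.re : ℂ) n =
        ((‖LSeries.term (fun n => (Λ n : ℂ)) (s.re : ℂ) n‖ : ℝ) : ℂ) := by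
      intro n
      rcases eq_or_ne n 0 with rfl | hn
      · simp
      · rw [LSeries.norm_term_eq, if_neg hn, LSeries.term_of_ne_zero hn, ofReal_re,
          Complex.norm_real, Real.norm_of_nonneg ArithmeticFunction.vonMangoldt_nonneg]
        push_cast
        rw [Complex.ofReal_cpow (Nat.cast_nonneg _)]
        simp
    rw [LSeries]
    conv_rhs => rw [tsum_congr e1]
    rw [← Complex.ofReal_tsum, Complex.norm_real, Real.norm_of_nonneg]
    exact tsum_nonneg fun _ => norm_nonneg _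
  rw [← h3, ← tsum_mul_left]
  exact tsum_of_norm_bounded hsum.hasSum hterm

/-- `L'/L(s, χ) = O(log)` to the right of `1`, for complex characters -/
theorem DX_log : ∃ C : ℝ, 0 < C ∧ ∀ (Q : ℕ) [NeZero Q] (χ : DirichletCharacter ℂ Q), χ ^ 2 ≠ 1 →
    ∀ t σ : ℝ, 1 < σ → σ ≤ 2 → ‖DX χ ⟨σ, t⟩‖ ≤ C * lq Q t := by
  obtain ⟨c, hc, hc1, hzf⟩ := zfl
  obtain ⟨K1, hK1pos, hball⟩ := LF_const
  obtain ⟨C0, hC0, hL⟩ := LL_bound
  refine ⟨K1 + (2 + 1 / (c / 2)) * ((1 + C0) + K1) + (1 + C0), by positivity,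
    fun Q _ χ hχ2 t σ h1 h2 => ?_⟩
  have hχ : χ ≠ 1 := by
    rintro rfl
    exact hχ2 (one_pow 2)
  set L := lq Q t with hLdef
  have hell := one_le_lq Q t
  have hell0 : 0 < L := by linarith
  -- the trivial bound
  have htriv : ∀ x : ℝ, 1 + 1 / L ≤ x → x ≤ 2 → ‖DX χ ⟨x, t⟩‖ ≤ (1 + C0) * L := by
    intro x hx hx2
    have hiL : 0 < 1 / L := by positivity
    have hx1 : 1 < x := by linarith
    have e1 := LSeries_eq_DL χ hχ (s := ⟨x, t⟩) hx1
    have e2 := (triv_bound (f := (fun n : ℕ => (χ n : ℂ)) * (fun n : ℕ => (Λ n : ℂ)))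
      (M := 1) zero_le_one (fun n => by
        rw [Pi.mul_apply, norm_mul, Complex.norm_real,
          Real.norm_of_nonneg ArithmeticFunction.vonMangoldt_nonneg]
        exact mul_le_mul_of_nonneg_right (χ.norm_le_one _)
          ArithmeticFunction.vonMangoldt_nonneg) (s := ⟨x, t⟩) hx1).2
    rw [e1, norm_neg, one_mul] at e2
    have e3 := hL x hx1 hx2
    have e4 : 1 / (x - 1) ≤ L := by
      rw [div_le_iff₀ (by linarith)]
      calc (1 : ℝ) = L * (1 / L) := by field_simp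
        _ ≤ L * (x - 1) := mul_le_mul_of_nonneg_left (by linarith) hell0.le
    have e5 : C0 ≤ C0 * L := le_mul_of_one_le_right hC0.le hell
    have e6 : ‖DX χ ⟨x, t⟩‖ ≤ 1 / (x - 1) + C0 := e2.trans e3
    nlinarith
  by_cases hσ : 1 + 1 / L ≤ σ
  · refine (htriv σ hσ h2).trans ?_
    refine mul_le_mul_of_nonneg_right ?_ hell0.le
    have : 0 ≤ K1 + (2 + 1 / (c / 2)) * ((1 + C0) + K1) := by positivity
    linarith
  · push Not at hσ
    obtain ⟨M, hM1, hMb, -, hbd⟩ := hball Q χ hχ t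
    have hcn : χ.LFunction ⟨2, t⟩ ≠ 0 := LF_ne_zero hχ (by norm_num)
    have hcb : ‖χ.LFunction ⟨2, t⟩‖ ≤ M := hMb _ (mem_closedBall_self (by norm_num))
    obtain ⟨s, hs1, hs2, hs3⟩ := landau_re (f := χ.LFunction) (c := ⟨2, t⟩) (r := 3 / 2)
      (r1 := 11 / 8) (r2 := 9 / 8) (R := 7 / 4) (M := M) (by norm_num) (by norm_num) (by norm_num)
      (by norm_num) (by norm_num) hM1 hcb
      (fun z _ => (DirichletCharacter.differentiable_LFunction hχ).analyticAt z) hcn hMb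
    have hre : ∀ ρ ∈ s, ρ.re ≤ 1 - (c / 2) / L := by
      intro ρ hρ
      have h3 := (hs1 ρ hρ).1
      rw [mem_closedBall, dist_eq_norm] at h3
      have h4 := (Complex.abs_im_le_norm (ρ - ⟨2, t⟩)).trans h3
      simp only [sub_im] at h4
      have h5 : lq Q ρ.im ≤ 2 * lq Q t := lq_near (by linarith)
      have h6 : 0 < lq Q ρ.im := by linarith [one_le_lq Q ρ.im]
      have h7 : c / (2 * L) ≤ c / lq Q ρ.im := div_le_div_of_nonneg_left hc.le h6 h5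
      have h8 := hzf Q χ hχ2 ρ (hs1 ρ hρ).2
      have h9 : c / 2 / L = c / (2 * L) := by rw [div_div]
      rw [h9]
      linarith
    have hK : ∀ x : ℝ, 1 < x → x ≤ 2 →
        ‖DX χ ⟨x, t⟩ - (s.map fun ρ => 1 / ((⟨x, t⟩ : ℂ) - ρ)).sum‖ ≤ K1 * L := by
      intro x hx hx2
      refine (hs3 ⟨x, t⟩ ?_ fun ρ hρ he => ?_).trans hbd
      · rw [mem_closedBall, dist_eq_norm]
        have e : (⟨x, t⟩ : ℂ) - ⟨2, t⟩ = ((x - 2 : ℝ) : ℂ) := by
          apply Complex.ext <;> simp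
        rw [e, Complex.norm_real, Real.norm_eq_abs, abs_le]
        constructor <;> linarith
      · have h3 := hre ρ hρ
        rw [← he] at h3
        have h4 : 0 < c / 2 / L := by positivity
        change x ≤ 1 - c / 2 / L at h3
        linarith
    have hiL1 : 1 / L ≤ 1 := by rw [div_le_one hell0]; exact hell
    have h10 := log_core (D := DX χ) s hell (by positivity : 0 < c / 2) hre hK
      (htriv (1 + 1 / L) le_rfl (by linarith)) h1 hσ.le
    refine h10.trans ?_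
    have e1 : K1 * L + (2 + 1 / (c / 2)) * ((1 + C0) * L + K1 * L) =
        (K1 + (2 + 1 / (c / 2)) * ((1 + C0) + K1)) * L := by ring
    rw [e1]
    refine mul_le_mul_of_nonneg_right ?_ hell0.le
    linarith

end Pool.Agent.Y770.SC
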