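import Pool.Agent.Y770.SC.ZL

/-!
# The logarithmic derivative of `(s-1) ζ(s)` is `O(log)`; the inner products of the twists
-/

set_option autoImplicit false

open Complex Filter Topology Set MeasureTheory Metric
open scoped ArithmeticFunction.vonMangoldt

namespace Pool.Agent.Y770.SC

open H370 H370.Loc Pool.Agent.W66 Pool.Agent.W66L

theorem DD_log : ∃ C : ℝ, 0 < C ∧ ∀ t σ : ℝ, 1 < σ → σ ≤ 2 → ‖DD ⟨σ, t⟩‖ ≤ C * ell t := by
  obtain ⟨c, hc, hc1, hzf⟩ := zf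
  obtain ⟨K0, hK0, hball⟩ := Z1_ball
  obtain ⟨C0, hC0, hL⟩ := LL_bound
  set K1 : ℝ := 2 * (K0 + K0 / Real.log (7 / 4 / (3 / 2)) * Real.log (3 / 2 / (7 / 4 - 3 / 2)) + 1) *
    (11 / 8) / (3 / 2 - 11 / 8) / (11 / 8 - 9 / 8) with hK1
  have hl1 : 0 < Real.log (7 / 4 / (3 / 2)) := Real.log_pos (by norm_num)
  have hl2 : 0 < Real.log (3 / 2 / (7 / 4 - 3 / 2)) := Real.log_pos (by norm_num)
  have hK1pos : 0 < K1 := by
    rw [hK1]
    have : 0 < K0 / Real.log (7 / 4 / (3 / 2)) * Real.log (3 / 2 / (7 / 4 - 3 / 2)) := by positivity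
    have h2 : (0 : ℝ) < 3 / 2 - 11 / 8 := by norm_num
    have h3 : (0 : ℝ) < 11 / 8 - 9 / 8 := by norm_num
    positivity
  refine ⟨K1 + (2 + 1 / (c / 2)) * ((2 + C0) + K1) + (2 + C0), by positivity,
    fun t σ h1 h2 => ?_⟩
  set L := ell t with hLdef
  have hell := one_le_ell t
  have hell0 : 0 < L := by linarith
  -- the trivial bound
  have htriv : ∀ x : ℝ, 1 + 1 / L ≤ x → x ≤ 2 → ‖DD ⟨x, t⟩‖ ≤ (2 + C0) * L := by
    intro x hx hx2
    have hiL : 0 < 1 / L := by positivity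
    have hx1 : 1 < x := by linarith
    have e1 := LSeries_eq_DD (s := ⟨x, t⟩) hx1
    have e2 := (triv_bound (f := (fun n : ℕ => (Λ n : ℂ)))
      (M := 1) zero_le_one (fun n => by
        rw [Complex.norm_real,
          Real.norm_of_nonneg ArithmeticFunction.vonMangoldt_nonneg, one_mul])
      (s := ⟨x, t⟩) hx1).2
    have e3 := hL x hx1 hx2
    rw [one_mul] at e2
    have e4 : 1 / (x - 1) ≤ L := by
      rw [div_le_iff₀ (by linarith)]
      calc (1 : ℝ) = L * (1 / L) := by field_simp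
        _ ≤ L * (x - 1) := mul_le_mul_of_nonneg_left (by linarith) hell0.le
    have e5 : C0 ≤ C0 * L := le_mul_of_one_le_right hC0.le hell
    have e6 : ‖1 / ((⟨x, t⟩ : ℂ) - 1)‖ ≤ 1 / (x - 1) := by
      rw [norm_div, norm_one]
      refine one_div_le_one_div_of_le (by linarith) ?_
      refine le_trans ?_ ((le_abs_self _).trans (Complex.abs_re_le_norm _))
      simp
    have e7 : DD ⟨x, t⟩ = 1 / ((⟨x, t⟩ : ℂ) - 1) - LSeries (fun n => (Λ n : ℂ)) ⟨x, t⟩ := by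
      rw [e1]
      ring
    rw [e7]
    have e8 := norm_sub_le (1 / ((⟨x, t⟩ : ℂ) - 1)) (LSeries (fun n => (Λ n : ℂ)) ⟨x, t⟩)
    have e9 : ‖LSeries (fun n => (Λ n : ℂ)) ⟨x, t⟩‖ ≤ 1 / (x - 1) + C0 := e2.trans e3
    nlinarith
  by_cases hσ : 1 + 1 / L ≤ σ
  · refine (htriv σ hσ h2).trans ?_
    refine mul_le_mul_of_nonneg_right ?_ hell0.le
    have : 0 ≤ K1 + (2 + 1 / (c / 2)) * ((2 + C0) + K1) := by positivity
    linarith
  · push Not at hσ
    obtain ⟨M, hM1, hMb, hl0, hlK⟩ := hball t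
    have hcn : Z1 ⟨2, t⟩ ≠ 0 := Z1_ne_zero (by norm_num)
    have hcb : ‖Z1 ⟨2, t⟩‖ ≤ M := hMb _ (mem_closedBall_self (by norm_num))
    obtain ⟨s, hs1, hs2, hs3⟩ := landau_re (f := Z1) (c := ⟨2, t⟩) (r := 3 / 2)
      (r1 := 11 / 8) (r2 := 9 / 8) (R := 7 / 4) (M := M) (by norm_num) (by norm_num) (by norm_num)
      (by norm_num) (by norm_num) hM1 hcb (fun z _ => Z1_diff.analyticAt z) hcn hMb
    have hbd : 2 * (Real.log (M / ‖Z1 ⟨2, t⟩‖) + Real.log (M / ‖Z1 ⟨2, t⟩‖) /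
        Real.log (7 / 4 / (3 / 2)) * Real.log (3 / 2 / (7 / 4 - 3 / 2)) + 1) * (11 / 8) /
        (3 / 2 - 11 / 8) / (11 / 8 - 9 / 8) ≤ K1 * ell t := by
      have e1 : Real.log (M / ‖Z1 ⟨2, t⟩‖) + Real.log (M / ‖Z1 ⟨2, t⟩‖) /
        Real.log (7 / 4 / (3 / 2)) * Real.log (3 / 2 / (7 / 4 - 3 / 2)) + 1 ≤
        (K0 + K0 / Real.log (7 / 4 / (3 / 2)) * Real.log (3 / 2 / (7 / 4 - 3 / 2)) + 1) *
          ell t := by
        have e2 : Real.log (M / ‖Z1 ⟨2, t⟩‖) /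
          Real.log (7 / 4 / (3 / 2)) * Real.log (3 / 2 / (7 / 4 - 3 / 2)) ≤
          (K0 * ell t) / Real.log (7 / 4 / (3 / 2)) * Real.log (3 / 2 / (7 / 4 - 3 / 2)) := by
          gcongr
        have e3 : (K0 * ell t) / Real.log (7 / 4 / (3 / 2)) *
          Real.log (3 / 2 / (7 / 4 - 3 / 2)) =
          K0 / Real.log (7 / 4 / (3 / 2)) * Real.log (3 / 2 / (7 / 4 - 3 / 2)) * ell t := by ring
        rw [e3] at e2
        nlinarith
      have h3 : (0 : ℝ) < 3 / 2 - 11 / 8 := by norm_num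
      have h4 : (0 : ℝ) < 11 / 8 - 9 / 8 := by norm_num
      calc _ ≤ 2 * ((K0 + K0 / Real.log (7 / 4 / (3 / 2)) *
            Real.log (3 / 2 / (7 / 4 - 3 / 2)) + 1) *
          ell t) * (11 / 8) / (3 / 2 - 11 / 8) / (11 / 8 - 9 / 8) := by gcongr
        _ = K1 * ell t := by rw [hK1]; ring
    have hre : ∀ ρ ∈ s, ρ.re ≤ 1 - (c / 2) / L := by
      intro ρ hρ
      have h3 := (hs1 ρ hρ).1
      rw [mem_closedBall, dist_eq_norm] at h3
      have h4 := (Complex.abs_im_le_norm (ρ - ⟨2, t⟩)).trans h3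
      simp only [sub_im] at h4
      have h5 : ell ρ.im ≤ 2 * ell t := ell_near (by linarith)
      have h6 : 0 < ell ρ.im := by linarith [one_le_ell ρ.im]
      have h7 : c / (2 * L) ≤ c / ell ρ.im := div_le_div_of_nonneg_left hc.le h6 h5
      have h8 := hzf ρ (hs1 ρ hρ).2
      have h9 : c / 2 / L = c / (2 * L) := by rw [div_div]
      rw [h9]
      linarith
    have hK : ∀ x : ℝ, 1 < x → x ≤ 2 →
        ‖DD ⟨x, t⟩ - (s.map fun ρ => 1 / ((⟨x, t⟩ : ℂ) - ρ)).sum‖ ≤ K1 * L := by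
      intro x hx hx2
      refine (hs3 ⟨x, t⟩ ?_ fun ρ hρ he => ?_).trans hbd
      · rw [mem_closedBall, dist_eq_norm]
        have e : (⟨x, t⟩ : ℂ) - ⟨2, t⟩ = ((x - 2 : ℝ) : ℂ) := by
          apply Complex.ext <;> simp
        rw [e, Complex.norm_real, Real.norm_eq_abs, abs_le]
        constructor <;> linarith
      · have h3 := hre ρ hρ
        rw [← he] at h3
        have h4 : 0 < c / 2 / L := by positivity
        change x ≤ 1 - c / 2 / L at h3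
        linarith
    have hiL1 : 1 / L ≤ 1 := by rw [div_le_one hell0]; exact hell
    have h10 := log_core (D := DD) s hell (by positivity : 0 < c / 2) hre hK
      (htriv (1 + 1 / L) le_rfl (by linarith)) h1 hσ.le
    refine h10.trans ?_
    have e1 : K1 * L + (2 + 1 / (c / 2)) * ((2 + C0) * L + K1 * L) =
        (K1 + (2 + 1 / (c / 2)) * ((2 + C0) + K1)) * L := by ring
    rw [e1]
    refine mul_le_mul_of_nonneg_right ?_ hell0.le
    linarith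

/-- the Dirichlet series of `Λ` near the edge -/
theorem LΛ : ∃ C : ℝ, 0 < C ∧ ∀ (ε u : ℝ), 0 < ε → ε ≤ 1 →
    ‖LSeries (fun n => (Λ n : ℂ)) ⟨1 + ε, u⟩‖ ≤ 1 / max ε |u| + C * ell u := by
  obtain ⟨C, hC, h⟩ := DD_log
  refine ⟨C, hC, fun ε u h1 h2 => ?_⟩
  have h3 : 1 < (⟨1 + ε, u⟩ : ℂ).re := by
    change 1 < 1 + ε
    linarith
  rw [LSeries_eq_DD h3]
  refine (norm_sub_le _ _).trans (add_le_add ?_ (h u (1 + ε) (by linarith) (by linarith)))
  rw [norm_div, norm_one]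
  have e : (⟨1 + ε, u⟩ : ℂ) - 1 = ⟨ε, u⟩ := by
    apply Complex.ext <;> simp
  rw [e]
  refine one_div_le_one_div_of_le (lt_max_of_lt_left h1) (max_le ?_ ?_)
  · exact (le_abs_self _).trans (Complex.abs_re_le_norm (⟨ε, u⟩ : ℂ))
  · exact Complex.abs_im_le_norm (⟨ε, u⟩ : ℂ)

/-- the Dirichlet series of `χ Λ` near the edge, `χ` complex -/
theorem LχΛ : ∃ C : ℝ, 0 < C ∧ ∀ (Q : ℕ) [NeZero Q] (χ : DirichletCharacter ℂ Q), χ ^ 2 ≠ 1 →
    ∀ (ε u : ℝ), 0 < ε → ε ≤ 1 →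
    ‖LSeries ((fun n : ℕ => (χ n : ℂ)) * (fun n : ℕ => (Λ n : ℂ))) ⟨1 + ε, u⟩‖ ≤
      C * lq Q u := by
  obtain ⟨C, hC, h⟩ := DX_log
  refine ⟨C, hC, fun Q _ χ hχ2 ε u h1 h2 => ?_⟩
  have hχ : χ ≠ 1 := by
    rintro rfl
    exact hχ2 (one_pow 2)
  have h3 : 1 < (⟨1 + ε, u⟩ : ℂ).re := by
    change 1 < 1 + ε
    linarith
  rw [LSeries_eq_DL χ hχ h3, norm_neg]
  exact h Q χ hχ2 u (1 + ε) (by linarith) (by linarith)

end Pool.Agent.Y770.SC
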