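import Pool.Agent.Y770.SC.ZM

/-!
# The quotient of two Dirichlet characters of different moduli
-/

set_option autoImplicit false

open Complex Filter Topology Set MeasureTheory Metric
open scoped ArithmeticFunction.vonMangoldt ComplexConjugate

namespace Pool.Agent.Y770.SC

open H370 H370.Loc Pool.Agent.W66 Pool.Agent.W66L

/-- the quotient `χ / ψ` as a character modulo `q r` -/
noncomputable def quo {q r : ℕ} (χ : DirichletCharacter ℂ q) (ψ : DirichletCharacter ℂ r) :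
    DirichletCharacter ℂ (q * r) :=
  DirichletCharacter.changeLevel (dvd_mul_right q r) χ *
    (DirichletCharacter.changeLevel (dvd_mul_left r q) ψ)⁻¹

lemma inv_eq_conj {z : ℂ} (hz : ‖z‖ = 1) : z⁻¹ = conj z := by
  rw [Complex.inv_def, Complex.normSq_eq_norm_sq, hz]
  simp

lemma quo_apply {q r : ℕ} [NeZero q] [NeZero r] (χ : DirichletCharacter ℂ q)
    (ψ : DirichletCharacter ℂ r) (n : ℕ) :
    quo χ ψ (n : ZMod (q * r)) = χ (n : ZMod q) * conj (ψ (n : ZMod r)) := by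
  unfold quo
  by_cases h : n.Coprime (q * r)
  · have hu : IsUnit (n : ZMod (q * r)) := (ZMod.isUnit_iff_coprime n (q * r)).2 h
    obtain ⟨hq, hr⟩ := Nat.coprime_mul_iff_right.1 h
    have hur : IsUnit (n : ZMod r) := (ZMod.isUnit_iff_coprime n r).2 hr
    obtain ⟨u, hu'⟩ := hu
    rw [MulChar.mul_apply, MulChar.inv_apply_eq_inv', ← hu',
      DirichletCharacter.changeLevel_eq_cast_of_dvd, DirichletCharacter.changeLevel_eq_cast_of_dvd,
      hu', ZMod.cast_natCast (dvd_mul_right q r), ZMod.cast_natCast (dvd_mul_left r q)]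
    have h1 : ‖ψ (n : ZMod r)‖ = 1 := by
      have := DirichletCharacter.unit_norm_eq_one ψ hur.unit
      rwa [IsUnit.unit_spec] at this
    rw [inv_eq_conj h1]
  · have hu : ¬ IsUnit (n : ZMod (q * r)) := fun h' => h ((ZMod.isUnit_iff_coprime n (q * r)).1 h')
    rw [MulChar.map_nonunit _ hu]
    rw [Nat.coprime_mul_iff_right, not_and_or] at h
    rcases h with h | h
    · rw [MulChar.map_nonunit χ fun h' => h ((ZMod.isUnit_iff_coprime n q).1 h'), zero_mul]
    · rw [MulChar.map_nonunit ψ fun h' => h ((ZMod.isUnit_iff_coprime n r).1 h'), map_zero,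
        mul_zero]

lemma sum_log_le (Q : ℕ) (hQ : Q ≠ 0) : ∑ p ∈ Q.primeFactors, Real.log p ≤ Real.log Q := by
  have h1 : ∏ p ∈ Q.primeFactors, p ≤ Q := Nat.le_of_dvd (Nat.pos_of_ne_zero hQ)
    Q.prod_primeFactors_dvd
  have h2 : Real.log ((∏ p ∈ Q.primeFactors, p : ℕ) : ℝ) = ∑ p ∈ Q.primeFactors, Real.log p := by
    push_cast
    rw [Real.log_prod]
    intro p hp
    exact_mod_cast (Nat.prime_of_mem_primeFactors hp).ne_zero
  rw [← h2]
  refine Real.log_le_log ?_ (by exact_mod_cast h1)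
  have : 0 < ∏ p ∈ Q.primeFactors, p :=
    Finset.prod_pos fun p hp => (Nat.prime_of_mem_primeFactors hp).pos
  exact_mod_cast this

/-- the principal character -/
lemma one_log (Q : ℕ) [NeZero Q] {s : ℂ} (hs : 1 < s.re) :
    ‖LSeries ((fun n : ℕ => ((1 : DirichletCharacter ℂ Q) n : ℂ)) * (fun n : ℕ => (Λ n : ℂ))) s‖ ≤
      ‖LSeries (fun n : ℕ => (Λ n : ℂ)) s‖ + Real.log Q := by
  have hne : s ≠ 1 := by
    rintro rfl
    simp at hs
  have hopen : {z : ℂ | 1 < z.re} ∈ 𝓝 s :=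
    (isOpen_lt continuous_const Complex.continuous_re).mem_nhds hs
  have hpn : ∀ p ∈ Q.primeFactors, ∀ z : ℂ, 1 < z.re → ‖(p : ℂ) ^ (-z)‖ ≤ 1 / 2 := by
    intro p hp z hz
    have hp' := Nat.prime_of_mem_primeFactors hp
    rw [Complex.norm_natCast_cpow_of_pos hp'.pos, Complex.neg_re]
    calc (p : ℝ) ^ (-z.re) ≤ (p : ℝ) ^ (-1 : ℝ) :=
          Real.rpow_le_rpow_of_exponent_le (by exact_mod_cast hp'.one_lt.le) (by linarith)
      _ = 1 / p := by rw [Real.rpow_neg_one, one_div]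
      _ ≤ 1 / 2 := one_div_le_one_div_of_le (by norm_num) (by exact_mod_cast hp'.two_le)
  have hfne : ∀ p ∈ Q.primeFactors, ∀ z : ℂ, 1 < z.re → (1 - (p : ℂ) ^ (-z)) ≠ 0 := by
    intro p hp z hz h0
    have h1 := hpn p hp z hz
    rw [← sub_eq_zero.1 h0, norm_one] at h1
    norm_num at h1
  have hderiv : ∀ p ∈ Q.primeFactors, HasDerivAt (fun z : ℂ => 1 - (p : ℂ) ^ (-z))
      ((p : ℂ) ^ (-s) * Real.log p) s := by
    intro p hp
    have hp' := Nat.prime_of_mem_primeFactors hp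
    have hp0 : (p : ℂ) ≠ 0 := by exact_mod_cast hp'.ne_zero
    have h1 := ((hasDerivAt_neg s).const_cpow (c := (p : ℂ)) (Or.inl hp0)).const_sub 1
    have h2 : (p : ℂ) ^ (-s) * Real.log p = -((p : ℂ) ^ (-s) * Complex.log p * -1) := by
      rw [Complex.natCast_log]
      ring
    rw [h2]
    exact h1
  -- the L-function of the principal character
  have hEq : (fun z => LSeries (fun n : ℕ => ((1 : DirichletCharacter ℂ Q) n : ℂ)) z) =ᶠ[𝓝 s]
      fun z => (∏ p ∈ Q.primeFactors, (1 - (p : ℂ) ^ (-z))) * riemannZeta z := by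
    filter_upwards [hopen, isOpen_ne.mem_nhds hne] with z hz hz1
    rw [← DirichletCharacter.LFunction_eq_LSeries _ hz]
    exact DirichletCharacter.LFunctionTrivChar_eq_mul_riemannZeta hz1
  have hprod_ne : (∏ p ∈ Q.primeFactors, (1 - (p : ℂ) ^ (-s))) ≠ 0 :=
    Finset.prod_ne_zero_iff.2 fun p hp => hfne p hp s hs
  have hz0 : riemannZeta s ≠ 0 := riemannZeta_ne_zero_of_one_lt_re hs
  have hl : logDeriv (fun z => LSeries (fun n : ℕ => ((1 : DirichletCharacter ℂ Q) n : ℂ)) z) s =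
      (∑ p ∈ Q.primeFactors, logDeriv (fun z : ℂ => 1 - (p : ℂ) ^ (-z)) s) +
        logDeriv riemannZeta s := by
    rw [logDeriv_apply, hEq.deriv_eq, hEq.eq_of_nhds, ← logDeriv_apply]
    rw [logDeriv_mul (f := fun z => ∏ p ∈ Q.primeFactors, (1 - (p : ℂ) ^ (-z)))
      (g := riemannZeta) s hprod_ne hz0 ?_ (differentiableAt_riemannZeta hne)]
    · congr 1
      have h5 := logDeriv_prod (s := Q.primeFactors) (f := fun p z => 1 - (p : ℂ) ^ (-z)) (x := s)
        (fun p hp => hfne p hp s hs) (fun p hp => (hderiv p hp).differentiableAt)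
      rw [← h5]
    · refine DifferentiableAt.fun_finsetProd fun p hp => (hderiv p hp).differentiableAt
  have h2 := DirichletCharacter.LSeries_twist_vonMangoldt_eq (1 : DirichletCharacter ℂ Q) hs
  rw [h2, ArithmeticFunction.LSeries_vonMangoldt_eq_deriv_riemannZeta_div hs]
  rw [neg_div, neg_div, norm_neg, norm_neg]
  rw [logDeriv_apply, logDeriv_apply] at hl
  rw [hl, add_comm]
  refine (norm_add_le _ _).trans (add_le_add le_rfl ?_)
  refine (norm_sum_le _ _).trans ((Finset.sum_le_sum fun p hp => ?_).trans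
    (sum_log_le Q (NeZero.ne Q)))
  have hp' := Nat.prime_of_mem_primeFactors hp
  have hlog : 0 ≤ Real.log p := Real.log_nonneg (by exact_mod_cast hp'.one_lt.le)
  rw [logDeriv_apply, (hderiv p hp).deriv, norm_div, norm_mul, Complex.norm_real,
    Real.norm_of_nonneg hlog]
  have h1 := hpn p hp s hs
  have h3 : 1 / 2 ≤ ‖1 - (p : ℂ) ^ (-s)‖ := by
    have := norm_sub_norm_le (1 : ℂ) ((p : ℂ) ^ (-s))
    rw [norm_one] at this
    linarith
  rw [div_le_iff₀ (by linarith)]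
  nlinarith [norm_nonneg ((p : ℂ) ^ (-s))]

/-- the inner products: `⟨χ n^{-iτ}, ψ n^{-iυ}⟩` -/
theorem inner_bound : ∃ C : ℝ, 0 < C ∧ ∀ (q r : ℕ) [NeZero q] [NeZero r]
    (χ : DirichletCharacter ℂ q) (ψ : DirichletCharacter ℂ r) (ε u : ℝ), 0 < ε → ε ≤ 1 →
    (quo χ ψ ^ 2 ≠ 1 ∨ quo χ ψ = 1) →
    ‖LSeries (fun n : ℕ => χ n * conj (ψ n) * (Λ n : ℂ)) ⟨1 + ε, u⟩‖ ≤
      (if quo χ ψ = 1 then 1 / max ε |u| else 0) + C * (Real.log q + Real.log r + ell u) := by
  obtain ⟨C1, hC1, h1⟩ := LΛ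
  obtain ⟨C2, hC2, h2⟩ := LχΛ
  refine ⟨C1 + C2 + 1, by positivity, fun q r _ _ χ ψ ε u hε hε1 hq => ?_⟩
  have hs : 1 < (⟨1 + ε, u⟩ : ℂ).re := by
    change 1 < 1 + ε
    linarith
  have hq0 : 0 ≤ Real.log q := Real.log_natCast_nonneg q
  have hr0 : 0 ≤ Real.log r := Real.log_natCast_nonneg r
  have hell := one_le_ell u
  have hlog : Real.log ((q * r : ℕ) : ℝ) = Real.log q + Real.log r := by
    push_cast
    exact Real.log_mul (by exact_mod_cast NeZero.ne q) (by exact_mod_cast NeZero.ne r)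
  have he : (fun n : ℕ => χ n * conj (ψ n) * (Λ n : ℂ)) =
      (fun n : ℕ => (quo χ ψ n : ℂ)) * (fun n : ℕ => (Λ n : ℂ)) := by
    funext n
    rw [Pi.mul_apply, quo_apply]
  rw [he]
  have hNZ : NeZero (q * r) := ⟨mul_ne_zero (NeZero.ne q) (NeZero.ne r)⟩
  by_cases h : quo χ ψ = 1
  · rw [if_pos h, h]
    refine (one_log (q * r) hs).trans ?_
    have h3 := h1 ε u hε hε1
    rw [hlog]
    nlinarith
  · rw [if_neg h]
    have h3 := hq.resolve_right h
    have h4 := h2 (q * r) (quo χ ψ) h3 ε u hε hε1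
    refine h4.trans ?_
    unfold lq
    rw [hlog]
    nlinarith

end Pool.Agent.Y770.SC
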